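import Pool.Agent.FRX.Defs
import Pool.Agent.MGE.VV
/-!
CRO (110 lines). Cross product and tight frame identities.
PROOF. Coordinates (pt0, pt1, pt2, ext by fin_cases), norms by EuclideanSpace.real_norm_sq_eq, inner by PiLp.inner_apply, ring. The sums over
vv: write inner_vv0..3 of MGE.VV; cc^2 = 1/2.
-/
set_option autoImplicit false

open MeasureTheory Set Metric Pool.Agent.MEIS Pool.Agent.MGE

open Pool.Agent.MSQ (cc)

namespace Pool.Agent.FRX

private theorem cr0 (a b : E) : cr a b 0 = a 1 * b 2 - a 2 * b 1 := rfl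
private theorem cr1 (a b : E) : cr a b 1 = a 2 * b 0 - a 0 * b 2 := rfl
private theorem cr2 (a b : E) : cr a b 2 = a 0 * b 1 - a 1 * b 0 := rfl
private theorem ext3 {x y : E} (h0 : x 0 = y 0) (h1 : x 1 = y 1) (h2 : x 2 = y 2) : x = y := by
  ext i
  fin_cases i
  · exact h0
  · exact h1
  · exact h2
private theorem inn (a b : E) : inner ℝ a b = a 0 * b 0 + a 1 * b 1 + a 2 * b 2 := by
  rw [PiLp.inner_apply, Fin.sum_univ_three]
  simp [mul_comm]
private theorem nsq (a : E) : ‖a‖ ^ 2 = a 0 ^ 2 + a 1 ^ 2 + a 2 ^ 2 := by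
  rw [← real_inner_self_eq_norm_sq, inn]
  ring

theorem cr_add_left (a b x : E) : cr (a + b) x = cr a x + cr b x := by
  apply ext3 <;>
    simp only [cr0, cr1, cr2, PiLp.add_apply, PiLp.smul_apply, PiLp.neg_apply, smul_eq_mul] <;> ring
theorem cr_add_right (a x y : E) : cr a (x + y) = cr a x + cr a y := by
  apply ext3 <;>
    simp only [cr0, cr1, cr2, PiLp.add_apply, PiLp.smul_apply, PiLp.neg_apply, smul_eq_mul] <;> ring
theorem cr_smul_left (t : ℝ) (a x : E) : cr (t • a) x = t • cr a x := by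
  apply ext3 <;>
    simp only [cr0, cr1, cr2, PiLp.add_apply, PiLp.smul_apply, PiLp.neg_apply, smul_eq_mul] <;> ring
theorem cr_smul_right (t : ℝ) (a x : E) : cr a (t • x) = t • cr a x := by
  apply ext3 <;>
    simp only [cr0, cr1, cr2, PiLp.add_apply, PiLp.smul_apply, PiLp.neg_apply, smul_eq_mul] <;> ring
theorem cr_anti (a b : E) : cr a b = -cr b a := by
  apply ext3 <;>
    simp only [cr0, cr1, cr2, PiLp.add_apply, PiLp.smul_apply, PiLp.neg_apply, smul_eq_mul] <;> ring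
theorem cr_self (a : E) : cr a a = 0 := by
  apply ext3 <;> simp only [cr0, cr1, cr2, PiLp.zero_apply] <;> ring
theorem cr_inner_left (a b : E) : inner ℝ (cr a b) a = 0 := by
  rw [inn, cr0, cr1, cr2]
  ring
theorem cr_inner_right (a b : E) : inner ℝ (cr a b) b = 0 := by
  rw [inn, cr0, cr1, cr2]
  ring
theorem cr_norm_sq (a b : E) : ‖cr a b‖ ^ 2 = ‖a‖ ^ 2 * ‖b‖ ^ 2 - (inner ℝ a b) ^ 2 := by
  rw [nsq, nsq, nsq, inn, cr0, cr1, cr2]
  ring
theorem cr_norm_le (a b : E) : ‖cr a b‖ ≤ ‖a‖ * ‖b‖ := by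
  apply abs_le_of_sq_le_sq' _ (by positivity) |>.2
  rw [cr_norm_sq]
  nlinarith [sq_nonneg (inner ℝ a b)]
theorem cr_cr (a b c : E) : cr a (cr b c) = inner ℝ a c • b - inner ℝ a b • c := by
  rw [inn, inn]
  apply ext3 <;>
    simp only [cr0, cr1, cr2, PiLp.sub_apply, PiLp.smul_apply, smul_eq_mul] <;> ring
theorem continuous_cr : Continuous fun z : E × E => cr z.1 z.2 := by
  have h1 : ∀ i : Fin 3, Continuous fun z : E × E => z.1 i := fun i =>
    (EuclideanSpace.proj (𝕜 := ℝ) i).continuous.comp continuous_fst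
  have h2 : ∀ i : Fin 3, Continuous fun z : E × E => z.2 i := fun i =>
    (EuclideanSpace.proj (𝕜 := ℝ) i).continuous.comp continuous_snd
  unfold cr pt
  refine (PiLp.continuous_toLp 2 _).comp (continuous_pi fun i => ?_)
  fin_cases i
  · exact ((h1 1).mul (h2 2)).sub ((h1 2).mul (h2 1))
  · exact ((h1 2).mul (h2 0)).sub ((h1 0).mul (h2 2))
  · exact ((h1 0).mul (h2 1)).sub ((h1 1).mul (h2 0))
private theorem gram {i j : Fin 4} (h : i ≠ j) : inner ℝ (vv i) (vv j) = -(1 / 8 : ℝ) := by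
  have h1 := vv_sub_inner h
  rw [inner_sub_left, real_inner_self_eq_norm_sq, vv_norm_sq, real_inner_comm] at h1
  linarith
private theorem gram_self (i : Fin 4) : inner ℝ (vv i) (vv i) = (3 / 8 : ℝ) := by
  rw [real_inner_self_eq_norm_sq, vv_norm_sq]
theorem vv_cr_norm {i j : Fin 4} (h : i ≠ j) : 2 * ‖cr (vv i) (vv j)‖ = cc := by
  have h1 := cr_norm_sq (vv i) (vv j)
  rw [vv_norm_sq, vv_norm_sq, gram h] at h1
  have h2 := cc_sq
  have h3 := cc_pos
  have h4 := norm_nonneg (cr (vv i) (vv j))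
  have h5 : (2 * ‖cr (vv i) (vv j)‖) ^ 2 = cc ^ 2 := by
    rw [h2, mul_pow, h1]
    norm_num
  exact (sq_eq_sq₀ (by positivity) h3.le).1 h5
private theorem a0 : vv 0 0 = 1 / 2 ∧ vv 0 1 = 0 ∧ vv 0 2 = cc / 2 := ⟨rfl, rfl, rfl⟩
private theorem a1 : vv 1 0 = -1 / 2 ∧ vv 1 1 = 0 ∧ vv 1 2 = cc / 2 := ⟨rfl, rfl, rfl⟩
private theorem a2 : vv 2 0 = 0 ∧ vv 2 1 = 1 / 2 ∧ vv 2 2 = -cc / 2 := ⟨rfl, rfl, rfl⟩
private theorem a3 : vv 3 0 = 0 ∧ vv 3 1 = -1 / 2 ∧ vv 3 2 = -cc / 2 := ⟨rfl, rfl, rfl⟩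
theorem vv_tight (x : E) : ∑ j, inner ℝ x (vv j) • vv j = (1 / 2 : ℝ) • x := by
  have h := cc_sq
  rw [Fin.sum_univ_four, inner_vv0, inner_vv1, inner_vv2, inner_vv3]
  apply ext3 <;>
    simp only [PiLp.add_apply, PiLp.smul_apply, smul_eq_mul, a0.1, a0.2.1, a0.2.2, a1.1, a1.2.1, a1.2.2,
      a2.1, a2.2.1, a2.2.2, a3.1, a3.2.1, a3.2.2]
  · ring
  · ring
  · linear_combination (x 2) * h
theorem ww_tight (x : E) :
    ∑ e ∈ prs, inner ℝ x (vv e.1 - vv e.2) • (vv e.1 - vv e.2) = (2 : ℝ) • x := by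
  have h := cc_sq
  have e : ∑ e ∈ prs, inner ℝ x (vv e.1 - vv e.2) • (vv e.1 - vv e.2)
      = inner ℝ x (vv 0 - vv 1) • (vv 0 - vv 1) + (inner ℝ x (vv 0 - vv 2) • (vv 0 - vv 2)
      + (inner ℝ x (vv 0 - vv 3) • (vv 0 - vv 3) + (inner ℝ x (vv 1 - vv 2) • (vv 1 - vv 2)
      + (inner ℝ x (vv 1 - vv 3) • (vv 1 - vv 3) + inner ℝ x (vv 2 - vv 3) • (vv 2 - vv 3))))) := by
    unfold prs
    rw [Finset.sum_insert (by decide), Finset.sum_insert (by decide), Finset.sum_insert (by decide),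
      Finset.sum_insert (by decide), Finset.sum_insert (by decide), Finset.sum_singleton]
  rw [e]
  simp only [inner_sub_right, inner_vv0, inner_vv1, inner_vv2, inner_vv3]
  apply ext3 <;>
    simp only [PiLp.add_apply, PiLp.sub_apply, PiLp.smul_apply, smul_eq_mul, a0.1, a0.2.1, a0.2.2, a1.1,
      a1.2.1, a1.2.2, a2.1, a2.2.1, a2.2.2, a3.1, a3.2.1, a3.2.2]
  · ring
  · ring
  · linear_combination (4 * x 2) * h
theorem vv_sum4 : ∑ j, vv j = 0 := by
  have h := Fin.sum_univ_four vv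
  rw [vv_sum] at h
  exact h
theorem SS_vv (p : Fin 4 → E) (i j : Fin 4) : SS p (vv i - vv j) = p i - p j := by
  unfold SS
  have h : ∀ k : Fin 4, inner ℝ (vv i - vv j) (vv k)
      = (if k = i then (1 / 2 : ℝ) else 0) - (if k = j then (1 / 2 : ℝ) else 0) := by
    intro k
    have g : ∀ a b : Fin 4, inner ℝ (vv a) (vv b) = (if b = a then (1 / 2 : ℝ) else 0) - 1 / 8 := by
      intro a b
      by_cases hab : b = a
      · rw [if_pos hab, hab, gram_self]
        norm_num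
      · rw [if_neg hab, gram (Ne.symm hab)]
        norm_num
    rw [inner_sub_left, g, g]
    ring
  simp only [h, sub_smul, Finset.sum_sub_distrib, ite_smul, zero_smul, Finset.sum_ite_eq', Finset.mem_univ,
    if_true]
  rw [smul_sub, smul_smul, smul_smul]
  norm_num
theorem SS_add (p : Fin 4 → E) (x y : E) : SS p (x + y) = SS p x + SS p y := by
  unfold SS
  rw [← smul_add, ← Finset.sum_add_distrib]
  congr 1
  refine Finset.sum_congr rfl fun j _ => ?_
  rw [inner_add_left, add_smul]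
theorem SS_smul (p : Fin 4 → E) (t : ℝ) (x : E) : SS p (t • x) = t • SS p x := by
  unfold SS
  have h : ∑ j, inner ℝ (t • x) (vv j) • p j = t • ∑ j, inner ℝ x (vv j) • p j := by
    rw [Finset.smul_sum]
    refine Finset.sum_congr rfl fun j _ => ?_
    rw [real_inner_smul_left, smul_smul]
  rw [h, smul_comm]

end Pool.Agent.FRX
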