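import Pool.Agent.FRX.Defs
import Pool.Agent.FRX.CRO
/-!
ARR (130 lines). Cycle and gradient part of an antisymmetric array.
PROOF. cyc and grd are explicit sums of six terms (Finset.sum over prs: simp [prs, Finset.sum_insert]). arr_zero: the six numbers r_e (e in prs)
satisfy six linear equations (coordinates of cyc r and grd r, cc ≠ 0) with only the zero solution: orthogonality gives the inverse formula
r_ij = 2 <vv i × vv j, cyc r> + 2 <vv i - vv j, grd r> for every antisymmetric r (check on the six pairs with linear_combination);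
diagonal entries vanish by antisymmetry. Norm bounds: triangle inequality, vv_cr_norm, vv_sub_norm. cyc_tau: linear in P and t; the
contribution of t is Σ_{i<j} 4 <v_i - v_j, t> v_i × v_j = 0 and of P_j = x (others 0) is v_j × x; coordinates and ring with cc² = 1/2, or
vv_tight.
-/
set_option autoImplicit false

open MeasureTheory Set Metric Pool.Agent.MEIS Pool.Agent.MGE

open Pool.Agent.MSQ (cc)

namespace Pool.Agent.FRX

private theorem sum6 {M : Type*} [AddCommMonoid M] (f : Fin 4 × Fin 4 → M) :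
    ∑ e ∈ prs, f e = f (0, 1) + (f (0, 2) + (f (0, 3) + (f (1, 2) + (f (1, 3) + f (2, 3))))) := by
  unfold prs
  rw [Finset.sum_insert (by decide), Finset.sum_insert (by decide), Finset.sum_insert (by decide),
    Finset.sum_insert (by decide), Finset.sum_insert (by decide), Finset.sum_singleton]

private theorem ext3 {x y : E} (h0 : x 0 = y 0) (h1 : x 1 = y 1) (h2 : x 2 = y 2) : x = y := by
  ext i
  fin_cases i
  · exact h0
  · exact h1
  · exact h2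

private theorem prs_ne {e : Fin 4 × Fin 4} (h : e ∈ prs) : e.1 ≠ e.2 := by
  revert e
  decide

private theorem cyc0 (r : Fin 4 → Fin 4 → ℝ) :
    cyc r 0 = -(cc / 2) * (r 0 2 - r 0 3 + r 1 2 - r 1 3 + 2 * r 2 3) := by
  rw [cyc, sum6]
  change 2 * r 0 1 * ((0 : ℝ) * (cc / 2) - cc / 2 * 0) + (2 * r 0 2 * (0 * (-cc / 2) - cc / 2 * (1 / 2)) +
    (2 * r 0 3 * (0 * (-cc / 2) - cc / 2 * (-1 / 2)) + (2 * r 1 2 * (0 * (-cc / 2) - cc / 2 * (1 / 2)) +
    (2 * r 1 3 * (0 * (-cc / 2) - cc / 2 * (-1 / 2)) + 2 * r 2 3 * (1 / 2 * (-cc / 2) - -cc / 2 * (-1 / 2)))))) = _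
  ring

private theorem cyc1 (r : Fin 4 → Fin 4 → ℝ) :
    cyc r 1 = cc / 2 * (-2 * r 0 1 + r 0 2 + r 0 3 - r 1 2 - r 1 3) := by
  rw [cyc, sum6]
  change 2 * r 0 1 * (cc / 2 * (-1 / 2 : ℝ) - 1 / 2 * (cc / 2)) + (2 * r 0 2 * (cc / 2 * 0 - 1 / 2 * (-cc / 2)) +
    (2 * r 0 3 * (cc / 2 * 0 - 1 / 2 * (-cc / 2)) + (2 * r 1 2 * (cc / 2 * 0 - -1 / 2 * (-cc / 2)) +
    (2 * r 1 3 * (cc / 2 * 0 - -1 / 2 * (-cc / 2)) + 2 * r 2 3 * (-cc / 2 * 0 - 0 * (-cc / 2)))))) = _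
  ring

private theorem cyc2 (r : Fin 4 → Fin 4 → ℝ) :
    cyc r 2 = 1 / 2 * (r 0 2 - r 0 3 - r 1 2 + r 1 3) := by
  rw [cyc, sum6]
  change 2 * r 0 1 * ((1 / 2 : ℝ) * 0 - 0 * (-1 / 2)) + (2 * r 0 2 * (1 / 2 * (1 / 2) - 0 * 0) +
    (2 * r 0 3 * (1 / 2 * (-1 / 2) - 0 * 0) + (2 * r 1 2 * (-1 / 2 * (1 / 2) - 0 * 0) +
    (2 * r 1 3 * (-1 / 2 * (-1 / 2) - 0 * 0) + 2 * r 2 3 * (0 * (-1 / 2) - 1 / 2 * 0))))) = _
  ring

private theorem grd0 (r : Fin 4 → Fin 4 → ℝ) :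
    grd r 0 = 1 / 8 * (2 * r 0 1 + r 0 2 + r 0 3 - r 1 2 - r 1 3) := by
  rw [grd, sum6]
  change 1 / 4 * (r 0 1 * ((1 / 2 : ℝ) - -1 / 2) + (r 0 2 * (1 / 2 - 0) + (r 0 3 * (1 / 2 - 0) +
    (r 1 2 * (-1 / 2 - 0) + (r 1 3 * (-1 / 2 - 0) + r 2 3 * (0 - 0)))))) = _
  ring

private theorem grd1 (r : Fin 4 → Fin 4 → ℝ) :
    grd r 1 = 1 / 8 * (2 * r 2 3 - r 0 2 + r 0 3 - r 1 2 + r 1 3) := by
  rw [grd, sum6]
  change 1 / 4 * (r 0 1 * ((0 : ℝ) - 0) + (r 0 2 * (0 - 1 / 2) + (r 0 3 * (0 - -1 / 2) +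
    (r 1 2 * (0 - 1 / 2) + (r 1 3 * (0 - -1 / 2) + r 2 3 * (1 / 2 - -1 / 2)))))) = _
  ring

private theorem grd2 (r : Fin 4 → Fin 4 → ℝ) :
    grd r 2 = cc / 4 * (r 0 2 + r 0 3 + r 1 2 + r 1 3) := by
  rw [grd, sum6]
  change 1 / 4 * (r 0 1 * (cc / 2 - cc / 2) + (r 0 2 * (cc / 2 - -cc / 2) + (r 0 3 * (cc / 2 - -cc / 2) +
    (r 1 2 * (cc / 2 - -cc / 2) + (r 1 3 * (cc / 2 - -cc / 2) + r 2 3 * (-cc / 2 - -cc / 2)))))) = _
  ring

private theorem iv (i j : Fin 4) (x : E) :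
    inner ℝ (vv i - vv j) x = inner ℝ x (vv i) - inner ℝ x (vv j) := by
  rw [inner_sub_left, real_inner_comm, real_inner_comm (vv j)]

private theorem ad (x y : E) (i : Fin 3) : (x + y) i = x i + y i := rfl

private theorem grd_t (t : E) : grd (fun i j => 2 * inner ℝ (vv i - vv j) t) = t := by
  have h := ww_tight t
  have h1 : grd (fun i j => 2 * inner ℝ (vv i - vv j) t) =
      (1 / 2 : ℝ) • ∑ e ∈ prs, inner ℝ t (vv e.1 - vv e.2) • (vv e.1 - vv e.2) := by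
    rw [grd, Finset.smul_sum, Finset.smul_sum]
    refine Finset.sum_congr rfl fun e _ => ?_
    rw [smul_smul, smul_smul, real_inner_comm t]
    congr 1
    ring
  rw [h1, h, smul_smul]
  norm_num

theorem arr_zero {r : Fin 4 → Fin 4 → ℝ} (ha : ∀ i j, r i j = -r j i) (h1 : cyc r = 0)
    (h2 : grd r = 0) : ∀ i j, r i j = 0 := by
  have hc := cc_pos
  have e0 : -(cc / 2) * (r 0 2 - r 0 3 + r 1 2 - r 1 3 + 2 * r 2 3) = 0 := by
    rw [← cyc0, h1]; rfl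
  have e1 : cc / 2 * (-2 * r 0 1 + r 0 2 + r 0 3 - r 1 2 - r 1 3) = 0 := by
    rw [← cyc1, h1]; rfl
  have e2 : 1 / 2 * (r 0 2 - r 0 3 - r 1 2 + r 1 3) = 0 := by
    rw [← cyc2, h1]; rfl
  have e3 : 1 / 8 * (2 * r 0 1 + r 0 2 + r 0 3 - r 1 2 - r 1 3) = 0 := by
    rw [← grd0, h2]; rfl
  have e4 : 1 / 8 * (2 * r 2 3 - r 0 2 + r 0 3 - r 1 2 + r 1 3) = 0 := by
    rw [← grd1, h2]; rfl
  have e5 : cc / 4 * (r 0 2 + r 0 3 + r 1 2 + r 1 3) = 0 := by
    rw [← grd2, h2]; rfl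
  have f0 := (mul_eq_zero.1 e0).resolve_left (by linarith)
  have f1 := (mul_eq_zero.1 e1).resolve_left (by linarith)
  have f5 := (mul_eq_zero.1 e5).resolve_left (by linarith)
  have g01 : r 0 1 = 0 := by linarith
  have g23 : r 2 3 = 0 := by linarith
  have g02 : r 0 2 = 0 := by linarith
  have g03 : r 0 3 = 0 := by linarith
  have g12 : r 1 2 = 0 := by linarith
  have g13 : r 1 3 = 0 := by linarith
  intro i j
  have hd : ∀ i, r i i = 0 := fun i => by have := ha i i; linarith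
  have hn : ∀ i j, r j i = 0 → r i j = 0 := fun i j h => by rw [ha, h, neg_zero]
  fin_cases i <;> fin_cases j
  · exact hd 0
  · exact g01
  · exact g02
  · exact g03
  · exact hn _ _ g01
  · exact hd 1
  · exact g12
  · exact g13
  · exact hn _ _ g02
  · exact hn _ _ g12
  · exact hd 2
  · exact g23
  · exact hn _ _ g03
  · exact hn _ _ g13
  · exact hn _ _ g23
  · exact hd 3
theorem cyc_norm (r : Fin 4 → Fin 4 → ℝ) : ‖cyc r‖ ≤ cc * ∑ e ∈ prs, |r e.1 e.2| := by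
  rw [cyc, Finset.mul_sum]
  refine (norm_sum_le _ _).trans (Finset.sum_le_sum fun e he => ?_)
  rw [norm_smul, norm_mul, Real.norm_ofNat, Real.norm_eq_abs, ← vv_cr_norm (prs_ne he)]
  apply le_of_eq
  ring
theorem grd_norm (r : Fin 4 → Fin 4 → ℝ) : ‖grd r‖ ≤ 1 / 4 * ∑ e ∈ prs, |r e.1 e.2| := by
  rw [grd, norm_smul, Finset.mul_sum, Real.norm_of_nonneg (by norm_num), ← Finset.mul_sum]
  refine mul_le_mul_of_nonneg_left ((norm_sum_le _ _).trans (Finset.sum_le_sum fun e he => ?_)) (by norm_num)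
  rw [norm_smul, Real.norm_eq_abs, vv_sub_norm (prs_ne he), mul_one]
theorem cyc_sub (r r' : Fin 4 → Fin 4 → ℝ) :
    cyc (fun i j => r i j - r' i j) = cyc r - cyc r' := by
  rw [cyc, cyc, cyc, ← Finset.sum_sub_distrib]
  refine Finset.sum_congr rfl fun e _ => ?_
  rw [mul_sub, sub_smul]
theorem grd_sub (r r' : Fin 4 → Fin 4 → ℝ) :
    grd (fun i j => r i j - r' i j) = grd r - grd r' := by
  rw [grd, grd, grd, ← smul_sub, ← Finset.sum_sub_distrib]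
  congr 1
  refine Finset.sum_congr rfl fun e _ => ?_
  rw [sub_smul]
theorem cyc_smul (a : ℝ) (r : Fin 4 → Fin 4 → ℝ) : cyc (fun i j => a * r i j) = a • cyc r := by
  rw [cyc, cyc, Finset.smul_sum]
  refine Finset.sum_congr rfl fun e _ => ?_
  rw [smul_smul]
  congr 1
  ring
theorem grd_smul (a : ℝ) (r : Fin 4 → Fin 4 → ℝ) : grd (fun i j => a * r i j) = a • grd r := by
  rw [grd, grd, smul_comm a, Finset.smul_sum (r := a)]
  congr 1
  refine Finset.sum_congr rfl fun e _ => ?_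
  rw [smul_smul]
theorem cyc_tau (P : Fin 4 → E) (t : E) :
    cyc (fun i j => 2 * inner ℝ (vv i - vv j) t - inner ℝ (vv i - vv j) (P i + P j)) =
      ∑ j, cr (vv j) (P j) := by
  have h := cc_sq
  have e : ∀ i : Fin 3, (∑ j, cr (vv j) (P j)) i = cr (vv 0) (P 0) i + cr (vv 1) (P 1) i +
      cr (vv 2) (P 2) i + cr (vv 3) (P 3) i := by
    intro i
    rw [Fin.sum_univ_four]
    rfl
  apply ext3
  · rw [cyc0, e]
    change _ = ((0 : ℝ) * P 0 2 - cc / 2 * P 0 1) + (0 * P 1 2 - cc / 2 * P 1 1) +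
      (1 / 2 * P 2 2 - -cc / 2 * P 2 1) + (-1 / 2 * P 3 2 - -cc / 2 * P 3 1)
    simp only [iv, inner_vv0, inner_vv1, inner_vv2, inner_vv3, ad]
    linear_combination (P 2 2 - P 3 2) * h
  · rw [cyc1, e]
    change _ = (cc / 2 * P 0 0 - (1 / 2 : ℝ) * P 0 2) + (cc / 2 * P 1 0 - -1 / 2 * P 1 2) +
      (-cc / 2 * P 2 0 - 0 * P 2 2) + (-cc / 2 * P 3 0 - 0 * P 3 2)
    simp only [iv, inner_vv0, inner_vv1, inner_vv2, inner_vv3, ad]
    linear_combination (P 1 2 - P 0 2) * h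
  · rw [cyc2, e]
    change _ = ((1 / 2 : ℝ) * P 0 1 - 0 * P 0 0) + (-1 / 2 * P 1 1 - 0 * P 1 0) +
      (0 * P 2 1 - 1 / 2 * P 2 0) + (0 * P 3 1 - -1 / 2 * P 3 0)
    simp only [iv, inner_vv0, inner_vv1, inner_vv2, inner_vv3, ad]
    ring
theorem grd_tau (P : Fin 4 → E) (t : E) :
    grd (fun i j => 2 * inner ℝ (vv i - vv j) t - inner ℝ (vv i - vv j) (P i + P j)) =
      t - (1 / 4 : ℝ) • ∑ e ∈ prs, inner ℝ (vv e.1 - vv e.2) (P e.1 + P e.2) • (vv e.1 - vv e.2) := by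
  rw [grd_sub (fun i j => 2 * inner ℝ (vv i - vv j) t) (fun i j => inner ℝ (vv i - vv j) (P i + P j)), grd_t]
  rfl

end Pool.Agent.FRX
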