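import Pool.Agent.FRX.Defs
import Pool.Agent.BRW.BFIX
/-!
BP2 (80 lines). Brouwer for a product of two balls of E.
PROOF. Let ρ_M : E → E be the radial retraction onto closedBall 0 M (x if ‖x‖ ≤ M, else (M/‖x‖) x; x ↦ (M / max M ‖x‖) • x for M > 0, constant 0 for M = 0), continuous.
g = f ∘ (ρ_{M1} × ρ_{M2}) is continuous on E × E and maps everything into the product K of balls. Identify E × E with EuclideanSpace ℝ (Fin 6) by a
continuous linear equivalence (equal finrank: ContinuousLinearEquiv.ofFinrankEq); the image of K is bounded, so for a large radius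
brouwer applies to the conjugated g; its fixed point lies in K, where ρ is the identity, so it is fixed by f.
-/
set_option autoImplicit false

open MeasureTheory Set Metric Pool.Agent.MEIS Pool.Agent.MGE

open Pool.Agent.MSQ (cc)

namespace Pool.Agent.FRX

/-- The radial retraction. -/
private theorem BP2_retr (M : ℝ) (hM : 0 ≤ M) : ∃ ρ : E → E, Continuous ρ ∧ (∀ x, ‖ρ x‖ ≤ M) ∧
    ∀ x, ‖x‖ ≤ M → ρ x = x := by
  rcases hM.eq_or_lt with rfl | h0
  · refine ⟨fun _ => 0, continuous_const, fun x => by simp, fun x hx => ?_⟩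
    have h1 : x = 0 := norm_le_zero_iff.1 hx
    exact h1.symm
  · have hpos : ∀ x : E, 0 < max M ‖x‖ := fun x => lt_of_lt_of_le h0 (le_max_left M ‖x‖)
    refine ⟨fun x => (M / max M ‖x‖) • x, ?_, ?_, ?_⟩
    · refine Continuous.smul (continuous_const.div (continuous_const.max continuous_norm) fun x => ?_)
        continuous_id
      exact (hpos x).ne'
    · intro x
      have h1 : 0 ≤ M / max M ‖x‖ := div_nonneg hM (hpos x).le
      show ‖(M / max M ‖x‖) • x‖ ≤ M
      rw [norm_smul, Real.norm_eq_abs, abs_of_nonneg h1, div_mul_eq_mul_div, div_le_iff₀ (hpos x)]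
      exact mul_le_mul_of_nonneg_left (le_max_right M ‖x‖) hM
    · intro x hx
      show (M / max M ‖x‖) • x = x
      rw [max_eq_left hx, div_self h0.ne', one_smul]

theorem brouwer2 {f : E × E → E × E} (hf : Continuous f) {M1 M2 : ℝ} (h1 : 0 ≤ M1) (h2 : 0 ≤ M2)
    (hm : ∀ z : E × E, ‖z.1‖ ≤ M1 → ‖z.2‖ ≤ M2 → ‖(f z).1‖ ≤ M1 ∧ ‖(f z).2‖ ≤ M2) :
    ∃ z : E × E, ‖z.1‖ ≤ M1 ∧ ‖z.2‖ ≤ M2 ∧ f z = z := by
  obtain ⟨ρ1, c1, m1, i1⟩ := BP2_retr M1 h1
  obtain ⟨ρ2, c2, m2, i2⟩ := BP2_retr M2 h2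
  let g : E × E → E × E := fun z => f (ρ1 z.1, ρ2 z.2)
  have hg : Continuous g := hf.comp ((c1.comp continuous_fst).prodMk (c2.comp continuous_snd))
  have hgm : ∀ z, ‖(g z).1‖ ≤ M1 ∧ ‖(g z).2‖ ≤ M2 := fun z => hm _ (m1 _) (m2 _)
  let L : (E × E) ≃L[ℝ] EuclideanSpace ℝ (Fin (Module.finrank ℝ (E × E))) :=
    ContinuousLinearEquiv.ofFinrankEq (by rw [finrank_euclideanSpace_fin])
  let T : EuclideanSpace ℝ (Fin (Module.finrank ℝ (E × E))) →
      EuclideanSpace ℝ (Fin (Module.finrank ℝ (E × E))) := fun y => L (g (L.symm y))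
  have hT : Continuous T := L.continuous.comp (hg.comp L.symm.continuous)
  let R : ℝ := ‖(L : (E × E) →L[ℝ] EuclideanSpace ℝ (Fin (Module.finrank ℝ (E × E))))‖ * max M1 M2
  have hR : 0 ≤ R := mul_nonneg (norm_nonneg _) (h1.trans (le_max_left _ _))
  have hTm : ∀ y, ‖T y‖ ≤ R := by
    intro y
    refine ((L : (E × E) →L[ℝ] EuclideanSpace ℝ (Fin (Module.finrank ℝ (E × E)))).le_opNorm
      (g (L.symm y))).trans ?_
    refine mul_le_mul_of_nonneg_left ?_ (norm_nonneg _)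
    rw [Prod.norm_def]
    exact max_le_max (hgm _).1 (hgm _).2
  obtain ⟨y, -, hy⟩ := Pool.Agent.BRW.brouwer hR hT.continuousOn (fun y _ => mem_closedBall_zero_iff.2 (hTm y))
  refine ⟨L.symm y, ?_⟩
  have hfix : g (L.symm y) = L.symm y := by
    have h3 : L (g (L.symm y)) = y := hy
    rw [← L.symm_apply_apply (g (L.symm y)), h3]
  have h4 := hgm (L.symm y)
  rw [hfix] at h4
  refine ⟨h4.1, h4.2, ?_⟩
  have h5 : f (ρ1 (L.symm y).1, ρ2 (L.symm y).2) = L.symm y := hfix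
  rw [i1 _ h4.1, i2 _ h4.2] at h5
  exact h5

end Pool.Agent.FRX
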