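import Pool.Agent.FRX.Defs
import Pool.Agent.FRX.CRO
/-!
CAY (90 lines). The Cayley map is a rotation.
PROOF. With c = 2/(1+‖q‖²), u = cr q x, w = cr q u: <x,u> = 0, <u,w> = 0, <x,w> = -‖u‖², ‖w‖² = ‖q‖²‖u‖² (cr_cr, cr_norm_sq, <q,u> = 0):
‖x + c(u+w)‖² = ‖x‖² - 2c‖u‖² + c²(‖u‖² + ‖q‖²‖u‖²) = ‖x‖². Inverse: cr q w = -‖q‖² u, compute cy (-q) (cy q x) = x with field_simp.
Inner products by polarisation from the norm (cy q is additive) or LinearMap.isometry. Adjoint: <cy q x, y> = <cy (-q)(cy q x), cy (-q) y>.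
Continuity: continuous_cr, division by 1+‖q‖² > 0. The equivalence: LinearIsometryEquiv with inverse cy (-q).
-/
set_option autoImplicit false

open MeasureTheory Set Metric Pool.Agent.MEIS Pool.Agent.MGE

open Pool.Agent.MSQ (cc)

namespace Pool.Agent.FRX

private theorem nsq (q : E) : ‖q‖ ^ 2 = q 0 ^ 2 + q 1 ^ 2 + q 2 ^ 2 := by
  rw [EuclideanSpace.real_norm_sq_eq, Fin.sum_univ_three]

private theorem inn (x y : E) : inner ℝ x y = x 0 * y 0 + x 1 * y 1 + x 2 * y 2 := by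
  rw [PiLp.inner_apply, Fin.sum_univ_three]
  simp only [RCLike.inner_apply, conj_trivial]
  ring

private theorem cy0 (q x : E) : cy q x 0 = x 0 + (2 / (1 + ‖q‖ ^ 2)) *
    ((q 1 * x 2 - q 2 * x 1) + (q 1 * (q 0 * x 1 - q 1 * x 0) - q 2 * (q 2 * x 0 - q 0 * x 2))) := rfl
private theorem cy1 (q x : E) : cy q x 1 = x 1 + (2 / (1 + ‖q‖ ^ 2)) *
    ((q 2 * x 0 - q 0 * x 2) + (q 2 * (q 1 * x 2 - q 2 * x 1) - q 0 * (q 0 * x 1 - q 1 * x 0))) := rfl
private theorem cy2 (q x : E) : cy q x 2 = x 2 + (2 / (1 + ‖q‖ ^ 2)) *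
    ((q 0 * x 1 - q 1 * x 0) + (q 0 * (q 2 * x 0 - q 0 * x 2) - q 1 * (q 1 * x 2 - q 2 * x 1))) := rfl
private theorem ng (q : E) (i : Fin 3) : (-q) i = -(q i) := rfl

private theorem ext3 {x y : E} (h0 : x 0 = y 0) (h1 : x 1 = y 1) (h2 : x 2 = y 2) : x = y := by
  ext i
  fin_cases i
  · exact h0
  · exact h1
  · exact h2

private theorem adj (q x y : E) : inner ℝ (cy q x) y = inner ℝ x (cy (-q) y) := by
  rw [inn, inn, cy0, cy1, cy2, cy0, cy1, cy2, ng, ng, ng, norm_neg]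
  ring

private theorem invc (q x : E) : cy (-q) (cy q x) = x := by
  have hn : (1 : ℝ) + ‖q‖ ^ 2 ≠ 0 := by positivity
  have e : ‖q‖ ^ 2 = q 0 ^ 2 + q 1 ^ 2 + q 2 ^ 2 := nsq q
  have ec : (2 / (1 + ‖q‖ ^ 2)) * (1 + q 0 ^ 2 + q 1 ^ 2 + q 2 ^ 2) = 2 := by
    rw [add_assoc, add_assoc, ← add_assoc (q 0 ^ 2), ← e, div_mul_cancel₀ _ hn]
  apply ext3
  · rw [cy0, cy0, cy1, cy2, ng, ng, ng, norm_neg]
    generalize 2 / (1 + ‖q‖ ^ 2) = c at ec ⊢
    linear_combination (-c * (q 0 ^ 2 * x 0 + q 0 * q 1 * x 1 + q 0 * q 2 * x 2) + c * (q 0 ^ 2 + q 1 ^ 2 + q 2 ^ 2) * x 0) * ec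
  · rw [cy1, cy0, cy1, cy2, ng, ng, ng, norm_neg]
    generalize 2 / (1 + ‖q‖ ^ 2) = c at ec ⊢
    linear_combination (-c * (q 1 * q 0 * x 0 + q 1 ^ 2 * x 1 + q 1 * q 2 * x 2) + c * (q 0 ^ 2 + q 1 ^ 2 + q 2 ^ 2) * x 1) * ec
  · rw [cy2, cy0, cy1, cy2, ng, ng, ng, norm_neg]
    generalize 2 / (1 + ‖q‖ ^ 2) = c at ec ⊢
    linear_combination (-c * (q 2 * q 0 * x 0 + q 2 * q 1 * x 1 + q 2 ^ 2 * x 2) + c * (q 0 ^ 2 + q 1 ^ 2 + q 2 ^ 2) * x 2) * ec

private theorem inne (q x y : E) : inner ℝ (cy q x) (cy q y) = inner ℝ x y := by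
  rw [adj, invc]

theorem cy_add (q x y : E) : cy q (x + y) = cy q x + cy q y := by
  simp only [cy, cr_add_right, smul_add]
  abel
theorem cy_smul (q : E) (t : ℝ) (x : E) : cy q (t • x) = t • cy q x := by
  simp only [cy, cr_smul_right, smul_add, smul_comm t]
theorem cy_sub (q x y : E) : cy q (x - y) = cy q x - cy q y := by
  have h : x - y = x + (-1 : ℝ) • y := by rw [neg_one_smul, sub_eq_add_neg]
  rw [h, cy_add, cy_smul, neg_one_smul, sub_eq_add_neg]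
theorem cy_norm (q x : E) : ‖cy q x‖ = ‖x‖ := by
  have h := inne q x x
  rw [real_inner_self_eq_norm_sq, real_inner_self_eq_norm_sq] at h
  exact (sq_eq_sq₀ (norm_nonneg _) (norm_nonneg _)).1 h
theorem cy_inv (q x : E) : cy (-q) (cy q x) = x := invc q x
theorem cy_inner (q x y : E) : inner ℝ (cy q x) (cy q y) = inner ℝ x y := inne q x y
theorem cy_adj (q x y : E) : inner ℝ (cy q x) y = inner ℝ x (cy (-q) y) := adj q x y
theorem continuous_cy : Continuous fun z : E × E => cy z.1 z.2 := by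
  unfold cy
  have h1 : Continuous fun z : E × E => cr z.1 z.2 := continuous_cr
  have h2 : Continuous fun z : E × E => cr z.1 (cr z.1 z.2) :=
    continuous_cr.comp (continuous_fst.prodMk h1)
  have h3 : Continuous fun z : E × E => (2 / (1 + ‖z.1‖ ^ 2) : ℝ) :=
    continuous_const.div (by fun_prop) fun z => by positivity
  have h4 : Continuous fun z : E × E => (2 / (1 + ‖z.1‖ ^ 2) : ℝ) • (cr z.1 z.2 + cr z.1 (cr z.1 z.2)) :=
    h3.smul (h1.add h2)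
  exact continuous_snd.add h4
theorem exists_cyE (q : E) : ∃ φ : E ≃ₗᵢ[ℝ] E, ∀ x, φ x = cy q x := by
  refine ⟨{ toFun := cy q, map_add' := cy_add q, map_smul' := fun t x => cy_smul q t x,
            invFun := cy (-q), left_inv := cy_inv q, right_inv := fun x => ?_, norm_map' := cy_norm q }, fun x => rfl⟩
  have h := cy_inv (-q) x
  rwa [neg_neg] at h

end Pool.Agent.FRX
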