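import Pool.Agent.FRX.Defs
import Pool.Agent.FRX.CRO
/-!
DEL (130 lines). Size of id - SᵀS.
PROOF. Δ(x,y) = <x,y> - <Sx,Sy>, entries a = Δ(e_i,e_j). For a pair e = (i,j): d_e = 1 - ‖p i - p j‖² = Δ(w_e, w_e) (SS_vv, vv_sub_norm) ≥ 0. Linear forms
in the six entries (cc² = 1/2): opposite pairs (01,23), (02,13), (03,12). Let σ_m, δ_m be sum and difference in the m-th opposite pair. Then
Σ_ij a_ij² = (3/4) Σ σ_m² - (1/2)(σ_1σ_2 + σ_1σ_3 + σ_2σ_3) + (1/2) Σ δ_m² (identity, check by ring) ≤ (5/4)(Σ σ_m)² since σ_m ≥ |δ_m| ≥ 0, and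
Σ a_ii = (1/2) Σ σ_m. For an orthonormal basis f: Σ_i Δ(f_i,f_i)² ≤ Σ_ij Δ(f_i,f_j)² = Σ_ij Δ(e_i,e_j)² and Σ_i Δ(f_i,f_i) = Σ_i Δ(e_i,e_i)
(change of orthonormal basis: expand f_i in e; Σ_i <f_i,e_a><f_i,e_b> = δ_ab; or Hilbert-Schmidt/trace invariance via matrices).
-/
set_option autoImplicit false

open MeasureTheory Set Metric Pool.Agent.MEIS Pool.Agent.MGE

open Pool.Agent.MSQ (cc)

namespace Pool.Agent.FRX

private noncomputable def DEL_D (p : Fin 4 → E) (x y : E) : ℝ := inner ℝ x y - inner ℝ (SS p x) (SS p y)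

private noncomputable def DEL_T (p : Fin 4 → E) (x : E) : E := x - (2 : ℝ) • ∑ j, inner ℝ (SS p x) (p j) • vv j

private theorem DEL_DT (p : Fin 4 → E) (x y : E) : DEL_D p x y = inner ℝ y (DEL_T p x) := by
  unfold DEL_D DEL_T
  rw [inner_sub_right, real_inner_comm x y, inner_smul_right, inner_sum]
  have h : inner ℝ (SS p x) (SS p y) = 2 * ∑ j, inner ℝ (SS p x) (p j) * inner ℝ y (vv j) := by
    conv_lhs => rw [SS.eq_def p y]
    rw [inner_smul_right, inner_sum]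
    congr 1
    refine Finset.sum_congr rfl fun j _ => ?_
    rw [inner_smul_right]
    ring
  rw [h]
  congr 2
  refine Finset.sum_congr rfl fun j _ => ?_
  rw [inner_smul_right]

private theorem DEL_symm (p : Fin 4 → E) (x y : E) : DEL_D p x y = DEL_D p y x := by
  unfold DEL_D
  rw [real_inner_comm x y, real_inner_comm (SS p x) (SS p y)]

private theorem DEL_addl (p : Fin 4 → E) (x y z : E) : DEL_D p (x + y) z = DEL_D p x z + DEL_D p y z := by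
  unfold DEL_D
  rw [SS_add, inner_add_left, inner_add_left]
  ring

private theorem DEL_smull (p : Fin 4 → E) (t : ℝ) (x z : E) : DEL_D p (t • x) z = t * DEL_D p x z := by
  unfold DEL_D
  rw [SS_smul, real_inner_smul_left, real_inner_smul_left]
  ring

private theorem DEL_addr (p : Fin 4 → E) (x y z : E) : DEL_D p z (x + y) = DEL_D p z x + DEL_D p z y := by
  rw [DEL_symm, DEL_addl, DEL_symm p x, DEL_symm p y]

private theorem DEL_smulr (p : Fin 4 → E) (t : ℝ) (x z : E) : DEL_D p z (t • x) = t * DEL_D p z x := by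
  rw [DEL_symm, DEL_smull, DEL_symm p x]

private theorem DEL_hs (p : Fin 4 → E) (e f : OrthonormalBasis (Fin 3) ℝ E) :
    ∑ i, ∑ j, DEL_D p (f i) (f j) ^ 2 = ∑ i, ∑ j, DEL_D p (e i) (e j) ^ 2 := by
  have key : ∀ (b g : OrthonormalBasis (Fin 3) ℝ E) (x : E),
      ∑ j, DEL_D p x (b j) ^ 2 = ∑ j, DEL_D p x (g j) ^ 2 := by
    intro b g x
    have h1 : ∀ b' : OrthonormalBasis (Fin 3) ℝ E, ∑ j, DEL_D p x (b' j) ^ 2 = ‖DEL_T p x‖ ^ 2 := by
      intro b'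
      rw [← b'.sum_sq_norm_inner_right (DEL_T p x)]
      refine Finset.sum_congr rfl fun j _ => ?_
      rw [DEL_DT, Real.norm_eq_abs, sq_abs]
    rw [h1, h1]
  calc ∑ i, ∑ j, DEL_D p (f i) (f j) ^ 2 = ∑ i, ∑ j, DEL_D p (f i) (e j) ^ 2 :=
        Finset.sum_congr rfl fun i _ => key f e (f i)
    _ = ∑ j, ∑ i, DEL_D p (f i) (e j) ^ 2 := Finset.sum_comm
    _ = ∑ j, ∑ i, DEL_D p (e j) (f i) ^ 2 := by
        refine Finset.sum_congr rfl fun j _ => Finset.sum_congr rfl fun i _ => ?_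
        rw [DEL_symm]
    _ = ∑ j, ∑ i, DEL_D p (e j) (e i) ^ 2 := Finset.sum_congr rfl fun i _ => key f e (e i)

private theorem DEL_tr (p : Fin 4 → E) (e f : OrthonormalBasis (Fin 3) ℝ E) :
    ∑ i, DEL_D p (f i) (f i) = ∑ i, DEL_D p (e i) (e i) := by
  have h1 : ∀ i, DEL_D p (f i) (f i) = ∑ a, inner ℝ (f i) (e a) * DEL_D p (f i) (e a) := by
    intro i
    rw [DEL_DT, ← e.sum_inner_mul_inner (f i) (DEL_T p (f i))]
    refine Finset.sum_congr rfl fun a _ => ?_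
    rw [DEL_DT]
  have h2 : ∀ a, DEL_D p (e a) (e a) = ∑ i, inner ℝ (f i) (e a) * DEL_D p (f i) (e a) := by
    intro a
    rw [DEL_DT, ← f.sum_inner_mul_inner (e a) (DEL_T p (e a))]
    refine Finset.sum_congr rfl fun i _ => ?_
    rw [DEL_symm p (f i) (e a), DEL_DT, real_inner_comm (f i) (e a)]
  rw [Finset.sum_congr rfl fun i _ => h1 i, Finset.sum_congr rfl fun a _ => h2 a, Finset.sum_comm]

private theorem DEL_de {p : Fin 4 → E} {i j : Fin 4} (h : i ≠ j) :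
    1 - ‖p i - p j‖ ^ 2 = DEL_D p (vv i - vv j) (vv i - vv j) := by
  unfold DEL_D
  rw [SS_vv, real_inner_self_eq_norm_sq, real_inner_self_eq_norm_sq, vv_sub_norm h]
  norm_num

private theorem DEL_w (i j : Fin 4) (x y z : ℝ) (h0 : (vv i - vv j) 0 = x) (h1 : (vv i - vv j) 1 = y)
    (h2 : (vv i - vv j) 2 = z) :
    vv i - vv j = x • (EuclideanSpace.basisFun (Fin 3) ℝ) 0 +
      (y • (EuclideanSpace.basisFun (Fin 3) ℝ) 1 + z • (EuclideanSpace.basisFun (Fin 3) ℝ) 2) := by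
  have key : ∀ k : Fin 3, k = 0 ∨ k = 1 ∨ k = 2 := by decide
  ext k
  rcases key k with rfl | rfl | rfl
  · rw [h0]
    simp [EuclideanSpace.basisFun_apply]
  · rw [h1]
    simp [EuclideanSpace.basisFun_apply]
  · rw [h2]
    simp [EuclideanSpace.basisFun_apply]

private theorem DEL_dw (p : Fin 4 → E) (a b c : E) (x y z : ℝ) :
    DEL_D p (x • a + (y • b + z • c)) (x • a + (y • b + z • c)) =
      x ^ 2 * DEL_D p a a + y ^ 2 * DEL_D p b b + z ^ 2 * DEL_D p c c + 2 * x * y * DEL_D p a b +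
        2 * x * z * DEL_D p a c + 2 * y * z * DEL_D p b c := by
  rw [DEL_addl, DEL_addl, DEL_addr, DEL_addr, DEL_addr, DEL_addr, DEL_addr, DEL_addr]
  simp only [DEL_smull, DEL_smulr]
  rw [DEL_symm p b a, DEL_symm p c a, DEL_symm p c b]
  ring

theorem del_sum {p : Fin 4 → E} (hd : ∀ i j, ‖p i - p j‖ ≤ 1) (f : OrthonormalBasis (Fin 3) ℝ E) :
    ∑ i, (1 - ‖SS p (f i)‖ ^ 2) = Dd p / 2 ∧
      ∑ i, (1 - ‖SS p (f i)‖ ^ 2) ^ 2 ≤ 5 / 4 * Dd p ^ 2 := by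
  have hc := cc_sq
  set e : OrthonormalBasis (Fin 3) ℝ E := EuclideanSpace.basisFun (Fin 3) ℝ with he
  have a0 : vv 0 0 = 1 / 2 ∧ vv 0 1 = 0 ∧ vv 0 2 = cc / 2 := ⟨rfl, rfl, rfl⟩
  have a1 : vv 1 0 = -1 / 2 ∧ vv 1 1 = 0 ∧ vv 1 2 = cc / 2 := ⟨rfl, rfl, rfl⟩
  have a2 : vv 2 0 = 0 ∧ vv 2 1 = 1 / 2 ∧ vv 2 2 = -cc / 2 := ⟨rfl, rfl, rfl⟩
  have a3 : vv 3 0 = 0 ∧ vv 3 1 = -1 / 2 ∧ vv 3 2 = -cc / 2 := ⟨rfl, rfl, rfl⟩
  obtain ⟨a00, a01, a02⟩ := a0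
  obtain ⟨a10, a11, a12⟩ := a1
  obtain ⟨a20, a21, a22⟩ := a2
  obtain ⟨a30, a31, a32⟩ := a3
  have w01 := DEL_w 0 1 1 0 0 (by rw [PiLp.sub_apply, a00, a10]; norm_num) (by rw [PiLp.sub_apply, a01, a11]; norm_num)
    (by rw [PiLp.sub_apply, a02, a12]; ring)
  have w02 := DEL_w 0 2 (1 / 2) (-(1 / 2)) cc (by rw [PiLp.sub_apply, a00, a20]; norm_num)
    (by rw [PiLp.sub_apply, a01, a21]; norm_num) (by rw [PiLp.sub_apply, a02, a22]; ring)
  have w03 := DEL_w 0 3 (1 / 2) (1 / 2) cc (by rw [PiLp.sub_apply, a00, a30]; norm_num)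
    (by rw [PiLp.sub_apply, a01, a31]; norm_num) (by rw [PiLp.sub_apply, a02, a32]; ring)
  have w12 := DEL_w 1 2 (-(1 / 2)) (-(1 / 2)) cc (by rw [PiLp.sub_apply, a10, a20]; norm_num)
    (by rw [PiLp.sub_apply, a11, a21]; norm_num) (by rw [PiLp.sub_apply, a12, a22]; ring)
  have w13 := DEL_w 1 3 (-(1 / 2)) (1 / 2) cc (by rw [PiLp.sub_apply, a10, a30]; norm_num)
    (by rw [PiLp.sub_apply, a11, a31]; norm_num) (by rw [PiLp.sub_apply, a12, a32]; ring)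
  have w23 := DEL_w 2 3 0 1 0 (by rw [PiLp.sub_apply, a20, a30]; norm_num)
    (by rw [PiLp.sub_apply, a21, a31]; norm_num) (by rw [PiLp.sub_apply, a22, a32]; ring)
  rw [← he] at w01 w02 w03 w12 w13 w23
  have d01 : 1 - ‖p 0 - p 1‖ ^ 2 = _ := DEL_de (by decide)
  have d02 : 1 - ‖p 0 - p 2‖ ^ 2 = _ := DEL_de (by decide)
  have d03 : 1 - ‖p 0 - p 3‖ ^ 2 = _ := DEL_de (by decide)
  have d12 : 1 - ‖p 1 - p 2‖ ^ 2 = _ := DEL_de (by decide)
  have d13 : 1 - ‖p 1 - p 3‖ ^ 2 = _ := DEL_de (by decide)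
  have d23 : 1 - ‖p 2 - p 3‖ ^ 2 = _ := DEL_de (by decide)
  rw [w01, DEL_dw] at d01
  rw [w02, DEL_dw] at d02
  rw [w03, DEL_dw] at d03
  rw [w12, DEL_dw] at d12
  rw [w13, DEL_dw] at d13
  rw [w23, DEL_dw] at d23
  have hp : ∀ i j, 0 ≤ 1 - ‖p i - p j‖ ^ 2 := by
    intro i j
    have h1 := hd i j
    have h2 := norm_nonneg (p i - p j)
    nlinarith
  have p01 := hp 0 1
  have p02 := hp 0 2
  have p03 := hp 0 3
  have p12 := hp 1 2
  have p13 := hp 1 3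
  have p23 := hp 2 3
  have hDd : Dd p = (1 - ‖p 0 - p 1‖ ^ 2) + (1 - ‖p 0 - p 2‖ ^ 2) + (1 - ‖p 0 - p 3‖ ^ 2) +
      (1 - ‖p 1 - p 2‖ ^ 2) + (1 - ‖p 1 - p 3‖ ^ 2) + (1 - ‖p 2 - p 3‖ ^ 2) := by
    unfold Dd prs
    rw [Finset.sum_insert (by decide), Finset.sum_insert (by decide), Finset.sum_insert (by decide),
      Finset.sum_insert (by decide), Finset.sum_insert (by decide), Finset.sum_singleton]
    ring
  have hfi : ∀ i, 1 - ‖SS p (f i)‖ ^ 2 = DEL_D p (f i) (f i) := by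
    intro i
    unfold DEL_D
    rw [real_inner_self_eq_norm_sq, real_inner_self_eq_norm_sq, f.norm_eq_one]
    norm_num
  have htr := DEL_tr p e f
  have hhs := DEL_hs p e f
  have hle : ∑ i, DEL_D p (f i) (f i) ^ 2 ≤ ∑ i, ∑ j, DEL_D p (f i) (f j) ^ 2 := by
    refine Finset.sum_le_sum fun i _ => ?_
    exact Finset.single_le_sum (f := fun j => DEL_D p (f i) (f j) ^ 2) (fun j _ => sq_nonneg _) (Finset.mem_univ i)
  simp only [hfi]
  rw [hhs] at hle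
  rw [htr]
  simp only [Fin.sum_univ_three] at hle ⊢
  rw [DEL_symm p (e 1) (e 0), DEL_symm p (e 2) (e 0), DEL_symm p (e 2) (e 1)] at hle
  generalize DEL_D p (e 0) (e 0) = x00 at *
  generalize DEL_D p (e 1) (e 1) = x11 at *
  generalize DEL_D p (e 2) (e 2) = x22 at *
  generalize DEL_D p (e 0) (e 1) = x01 at *
  generalize DEL_D p (e 0) (e 2) = x02 at *
  generalize DEL_D p (e 1) (e 2) = x12 at *
  generalize 1 - ‖p 0 - p 1‖ ^ 2 = y01 at *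
  generalize 1 - ‖p 0 - p 2‖ ^ 2 = y02 at *
  generalize 1 - ‖p 0 - p 3‖ ^ 2 = y03 at *
  generalize 1 - ‖p 1 - p 2‖ ^ 2 = y12 at *
  generalize 1 - ‖p 1 - p 3‖ ^ 2 = y13 at *
  generalize 1 - ‖p 2 - p 3‖ ^ 2 = y23 at *
  constructor
  · rw [hDd]
    linear_combination (-(1 / 2) : ℝ) * d01 - (1 / 2 : ℝ) * d02 - (1 / 2 : ℝ) * d03 - (1 / 2 : ℝ) * d12 -
      (1 / 2 : ℝ) * d13 - (1 / 2 : ℝ) * d23 - 2 * x22 * hc
  · refine le_trans hle ?_
    rw [hDd]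
    have e1 : x00 = y01 := by linear_combination -d01
    have e2 : x11 = y23 := by linear_combination -d23
    have e3 : x22 = ((y02 + y13) + (y03 + y12) - (y01 + y23)) / 2 := by
      linear_combination (-(1 / 2) : ℝ) * d02 - (1 / 2 : ℝ) * d13 - (1 / 2 : ℝ) * d03 - (1 / 2 : ℝ) * d12 +
        (1 / 2 : ℝ) * d01 + (1 / 2 : ℝ) * d23 - 2 * x22 * hc
    have e4 : x01 = ((y03 + y12) - (y02 + y13)) / 2 := by
      linear_combination (1 / 2 : ℝ) * d02 + (1 / 2 : ℝ) * d13 - (1 / 2 : ℝ) * d03 - (1 / 2 : ℝ) * d12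
    have e5 : y02 - y13 = 2 * cc * (x02 - x12) := by linear_combination d02 - d13
    have e6 : y03 - y12 = 2 * cc * (x02 + x12) := by linear_combination d03 - d12
    have e7 : x02 ^ 2 + x12 ^ 2 = ((y02 - y13) ^ 2 + (y03 - y12) ^ 2) / 4 := by
      rw [e5, e6]
      linear_combination (-2 * (x02 ^ 2 + x12 ^ 2)) * hc
    have e8 : x00 ^ 2 + x01 ^ 2 + x02 ^ 2 + (x01 ^ 2 + x11 ^ 2 + x12 ^ 2) + (x02 ^ 2 + x12 ^ 2 + x22 ^ 2) =
        x00 ^ 2 + x11 ^ 2 + x22 ^ 2 + 2 * x01 ^ 2 + 2 * (x02 ^ 2 + x12 ^ 2) := by ring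
    rw [e8, e7, e1, e2, e3, e4]
    nlinarith [mul_nonneg p01 p23, mul_nonneg p02 p13, mul_nonneg p03 p12, mul_nonneg p01 p02, mul_nonneg p01 p03,
      mul_nonneg p01 p12, mul_nonneg p01 p13, mul_nonneg p23 p02, mul_nonneg p23 p03, mul_nonneg p23 p12,
      mul_nonneg p23 p13, mul_nonneg p02 p03, mul_nonneg p02 p12, mul_nonneg p13 p03, mul_nonneg p13 p12]


end Pool.Agent.FRX
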