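import Pool.Agent.MGE.Defs
/-!
FRX: existence of the frame (full Meissner conjecture, MP_f10237_gt). Definitions.
A body of constant width one whose circumradius is more than 0.6027 can be moved so that its support function
is 1/2 at the twelve differences of vertices of the regular tetrahedron, with small defects at the vertices.
-/
set_option autoImplicit false

open MeasureTheory Set Metric Pool.Agent.MEIS Pool.Agent.MGE

namespace Pool.Agent.FRX

noncomputable section

/-- cross product -/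
def cr (a b : E) : E :=
  pt (a 1 * b 2 - a 2 * b 1) (a 2 * b 0 - a 0 * b 2) (a 0 * b 1 - a 1 * b 0)

/-- Cayley rotation with parameter `q` -/
def cy (q x : E) : E := x + (2 / (1 + ‖q‖ ^ 2)) • (cr q x + cr q (cr q x))

/-- the six pairs -/
def prs : Finset (Fin 4 × Fin 4) := {(0, 1), (0, 2), (0, 3), (1, 2), (1, 3), (2, 3)}

/-- the linear map sending `vv i - vv j` to `p i - p j` -/
def SS (p : Fin 4 → E) (x : E) : E := (2 : ℝ) • ∑ j, inner ℝ x (vv j) • p j

/-- its trace -/
def trS (p : Fin 4 → E) : ℝ := 2 * ∑ j, inner ℝ (vv j) (p j)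

/-- cycle part of an array -/
def cyc (r : Fin 4 → Fin 4 → ℝ) : E := ∑ e ∈ prs, (2 * r e.1 e.2) • cr (vv e.1) (vv e.2)

/-- gradient part of an array -/
def grd (r : Fin 4 → Fin 4 → ℝ) : E := (1 / 4 : ℝ) • ∑ e ∈ prs, r e.1 e.2 • (vv e.1 - vv e.2)

/-- `θ_ij + θ_ji` -/
def sj (p : Fin 4 → E) (q : E) (i j : Fin 4) : ℝ := 1 - inner ℝ (vv i - vv j) (cy q (p i - p j))

/-- `θ_ij - θ_ji` -/
def ta (p : Fin 4 → E) (q t : E) (i j : Fin 4) : ℝ :=
  2 * inner ℝ (vv i - vv j) t - inner ℝ (vv i - vv j) (cy q (p i) + cy q (p j))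

/-- sum of the defects -/
def Tq (p : Fin 4 → E) (q : E) : ℝ := ∑ e ∈ prs, sj p q e.1 e.2

/-- the vector `Σ v_j × A^T p_j` -/
def om (p : Fin 4 → E) (q : E) : E := ∑ j, cr (vv j) (cy q (p j))

/-- `1/2` minus the moved support function at the differences -/
def Fd (H : E → ℝ) (q t : E) (i j : Fin 4) : ℝ :=
  1 / 2 - (H (cy (-q) (vv i - vv j)) - inner ℝ (vv i - vv j) t)

/-- total deficiency of the distances -/
def Dd (p : Fin 4 → E) : ℝ := ∑ e ∈ prs, (1 - ‖p e.1 - p e.2‖ ^ 2)

/-- `S` symmetric and close to the identity (conclusions of module SPE) -/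
structure Sok (p : Fin 4 → E) : Prop where
  sym : ∀ x y : E, inner ℝ (SS p x) y = inner ℝ x (SS p y)
  tr1 : 29399 / 10000 ≤ trS p
  tr2 : trS p ≤ 3
  cl : ∀ x : E, ‖SS p x - x‖ ≤ 124 / 1000 * ‖x‖

end

end Pool.Agent.FRX
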