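import Pool.Agent.FRX.Defs
import Pool.Agent.FRX.CRO
import Pool.Agent.FRX.CAY
/-!
OMG (140 lines). Formulas for the rotation defect and for the total defect.
PROOF. Write pbar = (1/4)Σ p_j; SS p (vv j) = p_j - pbar, so Σ_j v_j × M p_j = Σ_j v_j × M S v_j for linear M (vv_sum4), S = SS p. For a linear map B:
Σ_j v_j × B v_j = (1/2) Σ_i e_i × B e_i and Σ_j <v_j, B v_j> = (1/2) Σ_i <e_i, B e_i> (vv_tight; or coordinates). M = cy q = id + c (Q + Q²), Q x = cr q x,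
c = 2/(1+‖q‖²). With e_i the standard basis: Σ e_i × S e_i = 0 (S symmetric), Σ e_i × (q × S e_i) = (tr S) q - S q (cr_cr),
Σ e_i × (q × (q × S e_i)) = (Σ <e_i, q × S e_i>) q - q × S q = - q × S q. Total: the formula. trS p = Σ_i <e_i, S e_i>.
Tq = 6 - Σ_e <w_e, M S w_e> = 6 - 2 Σ_i <e_i, M S e_i> (ww_tight), tr(QS) = 0, tr(Q²S) = <q,Sq> - ‖q‖² tr S.
Expanding everything in coordinates (12 unknown coordinates of p, 3 of q) and using the three symmetry relations is an alternative.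
-/
set_option autoImplicit false

open MeasureTheory Set Metric Pool.Agent.MEIS Pool.Agent.MGE

open Pool.Agent.MSQ (cc)

namespace Pool.Agent.FRX

private theorem sum6 {M : Type*} [AddCommMonoid M] (f : Fin 4 × Fin 4 → M) :
    ∑ e ∈ prs, f e = f (0, 1) + (f (0, 2) + (f (0, 3) + (f (1, 2) + (f (1, 3) + f (2, 3))))) := by
  unfold prs
  rw [Finset.sum_insert (by decide), Finset.sum_insert (by decide), Finset.sum_insert (by decide),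
    Finset.sum_insert (by decide), Finset.sum_insert (by decide), Finset.sum_singleton]

private theorem ext3 {x y : E} (h0 : x 0 = y 0) (h1 : x 1 = y 1) (h2 : x 2 = y 2) : x = y := by
  ext i
  fin_cases i
  · exact h0
  · exact h1
  · exact h2

private theorem nsq (q : E) : ‖q‖ ^ 2 = q 0 ^ 2 + q 1 ^ 2 + q 2 ^ 2 := by
  rw [EuclideanSpace.real_norm_sq_eq, Fin.sum_univ_three]

private theorem inn (x y : E) : inner ℝ x y = x 0 * y 0 + x 1 * y 1 + x 2 * y 2 := by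
  rw [PiLp.inner_apply, Fin.sum_univ_three]
  simp only [RCLike.inner_apply, conj_trivial]
  ring

private theorem cy0 (q x : E) : cy q x 0 = x 0 + (2 / (1 + ‖q‖ ^ 2)) *
    ((q 1 * x 2 - q 2 * x 1) + (q 1 * (q 0 * x 1 - q 1 * x 0) - q 2 * (q 2 * x 0 - q 0 * x 2))) := rfl
private theorem cy1 (q x : E) : cy q x 1 = x 1 + (2 / (1 + ‖q‖ ^ 2)) *
    ((q 2 * x 0 - q 0 * x 2) + (q 2 * (q 1 * x 2 - q 2 * x 1) - q 0 * (q 0 * x 1 - q 1 * x 0))) := rfl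
private theorem cy2 (q x : E) : cy q x 2 = x 2 + (2 / (1 + ‖q‖ ^ 2)) *
    ((q 0 * x 1 - q 1 * x 0) + (q 0 * (q 2 * x 0 - q 0 * x 2) - q 1 * (q 1 * x 2 - q 2 * x 1))) := rfl

private theorem sb (x y : E) (i : Fin 3) : (x - y) i = x i - y i := rfl

private theorem SSx (p : Fin 4 → E) (x : E) (i : Fin 3) : SS p x i = x 0 * (p 0 i - p 1 i) +
    x 1 * (p 2 i - p 3 i) + x 2 * (cc * (p 0 i + p 1 i - p 2 i - p 3 i)) := by
  rw [SS, Fin.sum_univ_four, inner_vv0, inner_vv1, inner_vv2, inner_vv3]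
  change 2 * ((x 0 / 2 + x 2 * (cc / 2)) * p 0 i + (-(x 0 / 2) + x 2 * (cc / 2)) * p 1 i +
    (x 1 / 2 - x 2 * (cc / 2)) * p 2 i + (-(x 1 / 2) - x 2 * (cc / 2)) * p 3 i) = _
  ring

private theorem trx (p : Fin 4 → E) : trS p = (p 0 0 - p 1 0) + (p 2 1 - p 3 1) +
    cc * (p 0 2 + p 1 2 - p 2 2 - p 3 2) := by
  rw [trS, Fin.sum_univ_four, real_inner_comm, inner_vv0, real_inner_comm, inner_vv1,
    real_inner_comm, inner_vv2, real_inner_comm, inner_vv3]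
  ring

private theorem sy {p : Fin 4 → E} (h : ∀ x y : E, inner ℝ (SS p x) y = inner ℝ x (SS p y)) :
    p 0 1 - p 1 1 = p 2 0 - p 3 0 ∧ p 0 2 - p 1 2 = cc * (p 0 0 + p 1 0 - p 2 0 - p 3 0) ∧
      p 2 2 - p 3 2 = cc * (p 0 1 + p 1 1 - p 2 1 - p 3 1) := by
  have h1 := h (pt 1 0 0) (pt 0 1 0)
  have h2 := h (pt 1 0 0) (pt 0 0 1)
  have h3 := h (pt 0 1 0) (pt 0 0 1)
  rw [real_inner_comm (SS p (pt 0 1 0)), inner_pt, inner_pt] at h1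
  rw [real_inner_comm (SS p (pt 0 0 1)), inner_pt, inner_pt] at h2 h3
  simp only [SSx, pt0, pt1, pt2] at h1 h2 h3
  exact ⟨by linarith, by linarith, by linarith⟩

theorem om_eq {p : Fin 4 → E} (h : ∀ x y : E, inner ℝ (SS p x) y = inner ℝ x (SS p y)) (q : E) :
    om p q = (1 / (1 + ‖q‖ ^ 2)) • (trS p • q - SS p q - cr q (SS p q)) := by
  obtain ⟨s01, s02, s12⟩ := sy h
  have e : ∀ i : Fin 3, (om p q) i = cr (vv 0) (cy q (p 0)) i + cr (vv 1) (cy q (p 1)) i +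
      cr (vv 2) (cy q (p 2)) i + cr (vv 3) (cy q (p 3)) i := by
    intro i
    rw [om, Fin.sum_univ_four]
    rfl
  apply ext3
  · rw [e]
    change ((0 : ℝ) * cy q (p 0) 2 - cc / 2 * cy q (p 0) 1) + (0 * cy q (p 1) 2 - cc / 2 * cy q (p 1) 1) +
      (1 / 2 * cy q (p 2) 2 - -cc / 2 * cy q (p 2) 1) + (-1 / 2 * cy q (p 3) 2 - -cc / 2 * cy q (p 3) 1) =
      1 / (1 + ‖q‖ ^ 2) * (trS p * q 0 - SS p q 0 - (q 1 * SS p q 2 - q 2 * SS p q 1))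
    simp only [cy1, cy2, SSx, trx]
    linear_combination (1 / 2 - 1 / (1 + ‖q‖ ^ 2) * q 0 ^ 2) * s12 - 1 / (1 + ‖q‖ ^ 2) * q 0 * q 2 * s01 +
      1 / (1 + ‖q‖ ^ 2) * q 0 * q 1 * s02
  · rw [e]
    change (cc / 2 * cy q (p 0) 0 - (1 / 2 : ℝ) * cy q (p 0) 2) + (cc / 2 * cy q (p 1) 0 - -1 / 2 * cy q (p 1) 2) +
      (-cc / 2 * cy q (p 2) 0 - 0 * cy q (p 2) 2) + (-cc / 2 * cy q (p 3) 0 - 0 * cy q (p 3) 2) =
      1 / (1 + ‖q‖ ^ 2) * (trS p * q 1 - SS p q 1 - (q 2 * SS p q 0 - q 0 * SS p q 2))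
    simp only [cy0, cy2, SSx, trx]
    linear_combination (-(1 / 2 - 1 / (1 + ‖q‖ ^ 2) * q 1 ^ 2)) * s02 - 1 / (1 + ‖q‖ ^ 2) * q 0 * q 1 * s12 -
      1 / (1 + ‖q‖ ^ 2) * q 1 * q 2 * s01
  · rw [e]
    change ((1 / 2 : ℝ) * cy q (p 0) 1 - 0 * cy q (p 0) 0) + (-1 / 2 * cy q (p 1) 1 - 0 * cy q (p 1) 0) +
      (0 * cy q (p 2) 1 - 1 / 2 * cy q (p 2) 0) + (0 * cy q (p 3) 1 - -1 / 2 * cy q (p 3) 0) =
      1 / (1 + ‖q‖ ^ 2) * (trS p * q 2 - SS p q 2 - (q 0 * SS p q 1 - q 1 * SS p q 0))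
    simp only [cy0, cy1, SSx, trx]
    linear_combination (1 / 2 - 1 / (1 + ‖q‖ ^ 2) * q 2 ^ 2) * s01 + 1 / (1 + ‖q‖ ^ 2) * q 1 * q 2 * s02 -
      1 / (1 + ‖q‖ ^ 2) * q 0 * q 2 * s12
theorem Tq_eq {p : Fin 4 → E} (h : ∀ x y : E, inner ℝ (SS p x) y = inner ℝ x (SS p y)) (q : E) :
    Tq p q = 6 - 2 * trS p + 4 / (1 + ‖q‖ ^ 2) * (‖q‖ ^ 2 * trS p - inner ℝ q (SS p q)) := by
  obtain ⟨s01, s02, s12⟩ := sy h
  have iv : ∀ (i j : Fin 4) (x : E), inner ℝ (vv i - vv j) x = inner ℝ x (vv i) - inner ℝ x (vv j) := by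
    intro i j x
    rw [inner_sub_left, real_inner_comm, real_inner_comm (vv j)]
  have n := nsq q
  rw [Tq, sum6]
  simp only [sj, iv, inner_vv0, inner_vv1, inner_vv2, inner_vv3, cy0, cy1, cy2, sb]
  rw [inn]
  simp only [SSx, trx]
  linear_combination (-4) / (1 + ‖q‖ ^ 2) * (q 1 * s02 - q 2 * s01 - q 0 * s12) -
    4 / (1 + ‖q‖ ^ 2) * ((p 0 0 - p 1 0) + (p 2 1 - p 3 1) + cc * (p 0 2 + p 1 2 - p 2 2 - p 3 2)) * n

end Pool.Agent.FRX
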