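import Pool.Agent.FRX.Defs
import Pool.Agent.FRX.CRO
import Pool.Agent.FRX.OMG
/-!
REG (80 lines). Bounds in the region ‖q‖ ≤ 0.065.
PROOF. C = id - S, |C x| ≤ .124 |x| (cl), tr C = 3 - trS in [0, .0601]. om - 2q = (1/(1+‖q‖²)) (-2‖q‖² q - (tr C) q + C q + q × (C q)) (cr_self: q × S q =
- q × C q), so ‖2q - om‖ ≤ ‖q‖ (2‖q‖² + .0601 + .124 + .124‖q‖) ≤ .0132. Tq ≤ 6 - 2 trS + 4‖q‖² (2 + .124) using
‖q‖² trS - <q,Sq> = ‖q‖²(trS - 1) + <q,Cq> ≤ ‖q‖² (2 + .124): Tq ≤ .1202 + .0359 = .1561. cc < .70711. Sum ≤ .0132 + .1104 < .13.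
-/
set_option autoImplicit false

open MeasureTheory Set Metric Pool.Agent.MEIS Pool.Agent.MGE

open Pool.Agent.MSQ (cc)

namespace Pool.Agent.FRX

theorem reg_bound {p : Fin 4 → E} (h : Sok p) {q : E} (hq : ‖q‖ ≤ 65 / 1000) :
    ‖(2 : ℝ) • q - om p q‖ + cc * Tq p q ≤ 13 / 100 ∧ Tq p q ≤ 1561 / 10000 := by
  obtain ⟨d, hd⟩ : ∃ d : E, d = q - SS p q := ⟨_, rfl⟩
  have hS : SS p q = q - d := by rw [hd, sub_sub_cancel]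
  have hn0 : 0 ≤ ‖q‖ := norm_nonneg q
  have hdn : ‖d‖ ≤ 124 / 1000 * ‖q‖ := by
    rw [hd, norm_sub_rev]
    exact h.cl q
  have ht1 := h.tr1
  have ht2 := h.tr2
  have hpos : 0 < 1 + ‖q‖ ^ 2 := by positivity
  have hq2 : ‖q‖ ^ 2 ≤ 4225 / 1000000 := by nlinarith
  have hinv : 1 / (1 + ‖q‖ ^ 2) ≤ 1 := by
    rw [div_le_one hpos]
    nlinarith
  have hinv0 : 0 ≤ 1 / (1 + ‖q‖ ^ 2) := by positivity
  have hTq : Tq p q ≤ 1561 / 10000 := by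
    rw [Tq_eq h.sym q, hS, inner_sub_right, real_inner_self_eq_norm_sq]
    have h1 : inner ℝ q d ≤ ‖q‖ * ‖d‖ := real_inner_le_norm _ _
    have h2 : ‖q‖ * ‖d‖ ≤ 124 / 1000 * ‖q‖ ^ 2 := by
      have := mul_le_mul_of_nonneg_left hdn hn0
      nlinarith
    have h3 : ‖q‖ ^ 2 * trS p - (‖q‖ ^ 2 - inner ℝ q d) ≤ 2124 / 1000 * ‖q‖ ^ 2 := by
      have : ‖q‖ ^ 2 * trS p ≤ ‖q‖ ^ 2 * 3 := mul_le_mul_of_nonneg_left ht2 (by positivity)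
      linarith
    have h4 : 1 / (1 + ‖q‖ ^ 2) * (‖q‖ ^ 2 * trS p - (‖q‖ ^ 2 - inner ℝ q d)) ≤ 2124 / 1000 * ‖q‖ ^ 2 := by
      calc 1 / (1 + ‖q‖ ^ 2) * (‖q‖ ^ 2 * trS p - (‖q‖ ^ 2 - inner ℝ q d))
          ≤ 1 / (1 + ‖q‖ ^ 2) * (2124 / 1000 * ‖q‖ ^ 2) := mul_le_mul_of_nonneg_left h3 hinv0
        _ ≤ 1 * (2124 / 1000 * ‖q‖ ^ 2) := mul_le_mul_of_nonneg_right hinv (by positivity)
        _ = 2124 / 1000 * ‖q‖ ^ 2 := one_mul _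
    have h5 : 4 / (1 + ‖q‖ ^ 2) * (‖q‖ ^ 2 * trS p - (‖q‖ ^ 2 - inner ℝ q d)) =
        4 * (1 / (1 + ‖q‖ ^ 2) * (‖q‖ ^ 2 * trS p - (‖q‖ ^ 2 - inner ℝ q d))) := by ring
    rw [h5]
    linarith
  refine ⟨?_, hTq⟩
  have hom : (2 : ℝ) • q - om p q =
      (1 / (1 + ‖q‖ ^ 2)) • ((2 * ‖q‖ ^ 2 + 3 - trS p) • q - d - cr q d) := by
    rw [om_eq h.sym q, hS]
    have e1 : cr q (q - d) = -cr q d := by
      rw [sub_eq_add_neg, cr_add_right, cr_self, zero_add]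
      have := cr_smul_right (-1) q d
      simpa using this
    rw [e1]
    have e2 : (2 : ℝ) • q = (1 / (1 + ‖q‖ ^ 2)) • ((2 * (1 + ‖q‖ ^ 2)) • q) := by
      rw [smul_smul]
      congr 1
      field_simp
    rw [e2, ← smul_sub]
    congr 1
    module
  have hnorm : ‖(2 : ℝ) • q - om p q‖ ≤ 132 / 10000 := by
    rw [hom, norm_smul, Real.norm_eq_abs, abs_of_nonneg hinv0]
    have h1 : ‖(2 * ‖q‖ ^ 2 + 3 - trS p) • q - d - cr q d‖ ≤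
        (2 * ‖q‖ ^ 2 + 3 - trS p) * ‖q‖ + 124 / 1000 * ‖q‖ + ‖q‖ * (124 / 1000 * ‖q‖) := by
      have c0 : 0 ≤ 2 * ‖q‖ ^ 2 + 3 - trS p := by nlinarith
      calc ‖(2 * ‖q‖ ^ 2 + 3 - trS p) • q - d - cr q d‖
          ≤ ‖(2 * ‖q‖ ^ 2 + 3 - trS p) • q - d‖ + ‖cr q d‖ := norm_sub_le _ _
        _ ≤ ‖(2 * ‖q‖ ^ 2 + 3 - trS p) • q‖ + ‖d‖ + ‖q‖ * ‖d‖ :=
            add_le_add (norm_sub_le _ _) (cr_norm_le _ _)
        _ ≤ (2 * ‖q‖ ^ 2 + 3 - trS p) * ‖q‖ + 124 / 1000 * ‖q‖ + ‖q‖ * (124 / 1000 * ‖q‖) := by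
            rw [norm_smul, Real.norm_eq_abs, abs_of_nonneg c0]
            have := mul_le_mul_of_nonneg_left hdn hn0
            linarith
    have h2 : (2 * ‖q‖ ^ 2 + 3 - trS p) * ‖q‖ + 124 / 1000 * ‖q‖ + ‖q‖ * (124 / 1000 * ‖q‖) ≤ 132 / 10000 := by
      have h3 : 2 * ‖q‖ ^ 2 + 3 - trS p ≤ 6855 / 100000 := by linarith
      have h4 : (2 * ‖q‖ ^ 2 + 3 - trS p) * ‖q‖ ≤ 6855 / 100000 * ‖q‖ :=
        mul_le_mul_of_nonneg_right h3 hn0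
      nlinarith
    have h3 : 0 ≤ ‖(2 * ‖q‖ ^ 2 + 3 - trS p) • q - d - cr q d‖ := norm_nonneg _
    calc 1 / (1 + ‖q‖ ^ 2) * ‖(2 * ‖q‖ ^ 2 + 3 - trS p) • q - d - cr q d‖
        ≤ 1 * ‖(2 * ‖q‖ ^ 2 + 3 - trS p) • q - d - cr q d‖ := mul_le_mul_of_nonneg_right hinv h3
      _ ≤ 132 / 10000 := by rw [one_mul]; exact h1.trans h2
  have hcc : cc ≤ 70711 / 100000 := by
    have h1 := cc_sq
    have h2 := cc_pos
    nlinarith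
  have hc0 := cc_pos
  have h5 : cc * Tq p q ≤ cc * (1561 / 10000) := mul_le_mul_of_nonneg_left hTq hc0.le
  linarith

end Pool.Agent.FRX
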