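import Pool.Agent.FRX.Defs
import Pool.Agent.MEIS.SHB
import Pool.Agent.FRX.CRO
import Pool.Agent.FRX.CAY
import Pool.Agent.FRX.ARR
import Pool.Agent.FRX.REG
import Pool.Agent.FRX.BP2
/-!
FXP (150 lines). The frame by a fixed point argument.
PROOF. H is continuous (sublinear and H ≤ R‖.‖: |H x - H y| ≤ (|R|+1)‖x-y‖ from h.sub). Fd is antisymmetric (h.wid: H(Aw) + H(-Aw) = ‖Aw‖ = 1, cy linear). For i ≠ j:
H (cy (-q) w) ≥ <cy (-q) w, p i> = <w, cy q (p i)> (hp, cy_adj), so Fd_ij ≤ θ_ij := 1/2 - <w, cy q (p i)> + <w,t>, w = vv i - vv j; by antisymmetry Fd_ij ≥ -θ_ji,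
and ta = θ_ij - θ_ji, sj = θ_ij + θ_ji: hence |ta_ij - 2 Fd_ij| ≤ sj_ij. So ∑_prs |ta - 2Fd| ≤ Tq. In the variable z = (a,t), q = a/2:
f z = (a - cyc (2 Fd), t - grd (2 Fd)). cyc ta = om p q (cyc_tau, P j = cy q (p j)), so a - cyc(2Fd) = (2q - om) + cyc (ta - 2Fd), norm ≤ .13 for ‖a‖ ≤ .13
(reg_bound, cyc_norm). t - grd (2Fd) = (t - grd ta) + grd (ta - 2 Fd), t - grd ta = (1/4) Σ <w, cy q p_i + cy q p_j> w has norm ≤ (1/4)·6·2·max‖p‖, and
‖grd(..)‖ ≤ (1/4) Tq ≤ 1: M2 = 3 (Σ ‖p j‖) + 1. brouwer2 gives a fixed point: cyc (2Fd) = 0, grd (2Fd) = 0, arr_zero: Fd = 0.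
Then |ta_ij| ≤ sj_ij, so ‖om‖ = ‖cyc ta‖ ≤ cc Tq.
-/
set_option autoImplicit false

open MeasureTheory Set Metric Pool.Agent.MEIS Pool.Agent.MGE

open Pool.Agent.MSQ (cc)

namespace Pool.Agent.FRX

private theorem ne_of_prs {e : Fin 4 × Fin 4} (h : e ∈ prs) : e.1 ≠ e.2 := by
  revert e
  decide

private theorem cyc_congr {r r' : Fin 4 → Fin 4 → ℝ} (h : ∀ i j, i ≠ j → r i j = r' i j) : cyc r = cyc r' := by
  rw [cyc, cyc]
  refine Finset.sum_congr rfl fun e he => ?_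
  rw [h _ _ (ne_of_prs he)]

private theorem grd_congr {r r' : Fin 4 → Fin 4 → ℝ} (h : ∀ i j, i ≠ j → r i j = r' i j) : grd r = grd r' := by
  rw [grd, grd]
  congr 1
  refine Finset.sum_congr rfl fun e he => ?_
  rw [h _ _ (ne_of_prs he)]

private theorem Fd_anti {H : E → ℝ} {R : ℝ} (h : SH H R) (q t : E) {i j : Fin 4} (hij : i ≠ j) :
    Fd H q t i j = -Fd H q t j i := by
  have e : vv j - vv i = -(vv i - vv j) := by abel
  have e2 : cy (-q) (-(vv i - vv j)) = -cy (-q) (vv i - vv j) := by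
    have := cy_smul (-q) (-1) (vv i - vv j)
    simpa using this
  have w := h.wid (cy (-q) (vv i - vv j))
  rw [cy_norm, vv_sub_norm hij] at w
  rw [Fd, Fd, e, e2, inner_neg_left]
  linarith

private theorem Fd_le {H : E → ℝ} {p : Fin 4 → E}
    (hp : ∀ (i : Fin 4) (x : E), inner ℝ x (p i) ≤ H x) (q t : E) (i j : Fin 4) :
    Fd H q t i j ≤ 1 / 2 - inner ℝ (vv i - vv j) (cy q (p i)) + inner ℝ (vv i - vv j) t := by
  have h1 := hp i (cy (-q) (vv i - vv j))
  rw [cy_adj, neg_neg] at h1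
  rw [Fd]
  linarith

private theorem ta_sub {H : E → ℝ} {R : ℝ} (h : SH H R) {p : Fin 4 → E}
    (hp : ∀ (i : Fin 4) (x : E), inner ℝ x (p i) ≤ H x) (q t : E) {i j : Fin 4} (hij : i ≠ j) :
    |ta p q t i j - 2 * Fd H q t i j| ≤ sj p q i j := by
  have h1 := Fd_le hp q t i j
  have h2 := Fd_le hp q t j i
  have h3 := Fd_anti h q t hij
  have e : vv j - vv i = -(vv i - vv j) := by abel
  rw [e, inner_neg_left, inner_neg_left] at h2
  rw [ta, sj, cy_sub, inner_sub_right, inner_add_right, abs_le]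
  constructor <;> linarith

private theorem sum_ta {H : E → ℝ} {R : ℝ} (h : SH H R) {p : Fin 4 → E}
    (hp : ∀ (i : Fin 4) (x : E), inner ℝ x (p i) ≤ H x) (q t : E) :
    ∑ e ∈ prs, |ta p q t e.1 e.2 - 2 * Fd H q t e.1 e.2| ≤ Tq p q := by
  rw [Tq]
  exact Finset.sum_le_sum fun e he => ta_sub h hp q t (ne_of_prs he)

private theorem cyc_ta (p : Fin 4 → E) (q t : E) : cyc (ta p q t) = om p q := by
  rw [om, ← cyc_tau (fun j => cy q (p j)) t]
  rfl

private theorem grd_ta (p : Fin 4 → E) (q t : E) : t - grd (ta p q t) =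
    (1 / 4 : ℝ) • ∑ e ∈ prs, inner ℝ (vv e.1 - vv e.2) (cy q (p e.1) + cy q (p e.2)) • (vv e.1 - vv e.2) := by
  have h := grd_tau (fun j => cy q (p j)) t
  have e : grd (ta p q t) = grd (fun i j => 2 * inner ℝ (vv i - vv j) t -
      inner ℝ (vv i - vv j) ((fun j => cy q (p j)) i + (fun j => cy q (p j)) j)) := rfl
  rw [e, h]
  simp only [sub_sub_cancel]

private theorem Fd_cont {H : E → ℝ} {R : ℝ} (h : SH H R) (i j : Fin 4) :
    Continuous fun z : E × E => Fd H ((1 / 2 : ℝ) • z.1) z.2 i j := by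
  have h1 : Continuous fun z : E × E => cy (-((1 / 2 : ℝ) • z.1)) (vv i - vv j) :=
    continuous_cy.comp (((continuous_const_smul (1 / 2 : ℝ)).comp continuous_fst).neg.prodMk continuous_const)
  have h2 : Continuous fun z : E × E => (inner ℝ (vv i - vv j) z.2 : ℝ) := continuous_const.inner continuous_snd
  exact continuous_const.sub (((SH_cont h).comp h1).sub h2)

theorem fixed_frame {H : E → ℝ} {R : ℝ} (h : SH H R) {p : Fin 4 → E}
    (hp : ∀ (i : Fin 4) (x : E), inner ℝ x (p i) ≤ H x) (hS : Sok p) :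
    ∃ q t : E, ‖q‖ ≤ 65 / 1000 ∧ (∀ i j, i ≠ j → Fd H q t i j = 0) ∧
      (∀ i j, i ≠ j → |ta p q t i j| ≤ sj p q i j) ∧ ‖om p q‖ ≤ cc * Tq p q := by
  have hcp := cc_pos
  let f : E × E → E × E := fun z =>
    (z.1 - cyc (fun i j => 2 * Fd H ((1 / 2 : ℝ) • z.1) z.2 i j),
      z.2 - grd (fun i j => 2 * Fd H ((1 / 2 : ℝ) • z.1) z.2 i j))
  have hf : Continuous f := by
    have hF : ∀ i j : Fin 4, Continuous fun z : E × E => 2 * Fd H ((1 / 2 : ℝ) • z.1) z.2 i j :=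
      fun i j => continuous_const.mul (Fd_cont h i j)
    refine Continuous.prodMk (continuous_fst.sub ?_) (continuous_snd.sub ?_)
    · unfold cyc
      exact continuous_finsetSum _ fun e _ => (continuous_const.mul (hF _ _)).smul continuous_const
    · unfold grd
      have hg : Continuous fun z : E × E =>
          ∑ e ∈ prs, (2 * Fd H ((1 / 2 : ℝ) • z.1) z.2 e.1 e.2) • (vv e.1 - vv e.2) :=
        continuous_finsetSum _ fun e _ => (hF e.1 e.2).smul continuous_const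
      exact hg.const_smul (1 / 4 : ℝ)
  obtain ⟨M, hM⟩ : ∃ M : ℝ, M = 1 / 4 * ∑ e ∈ prs, (‖p e.1‖ + ‖p e.2‖) + 1 := ⟨_, rfl⟩
  have hM0 : 0 ≤ M := by
    rw [hM]
    have : 0 ≤ ∑ e ∈ prs, (‖p e.1‖ + ‖p e.2‖) :=
      Finset.sum_nonneg fun e _ => add_nonneg (norm_nonneg _) (norm_nonneg _)
    linarith
  have key : ∀ z : E × E, ‖z.1‖ ≤ 13 / 100 → ‖z.2‖ ≤ M → ‖(f z).1‖ ≤ 13 / 100 ∧ ‖(f z).2‖ ≤ M := by
    intro z h1 _
    obtain ⟨q, hq⟩ : ∃ q : E, q = (1 / 2 : ℝ) • z.1 := ⟨_, rfl⟩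
    have hz : z.1 = (2 : ℝ) • q := by
      rw [hq, smul_smul]
      norm_num
    have hqn : ‖q‖ ≤ 65 / 1000 := by
      rw [hq, norm_smul]
      norm_num
      linarith
    obtain ⟨r1, r2⟩ := reg_bound hS hqn
    have hs := sum_ta h hp q z.2
    have c1 := cyc_norm (fun i j => ta p q z.2 i j - 2 * Fd H q z.2 i j)
    have c2 := grd_norm (fun i j => ta p q z.2 i j - 2 * Fd H q z.2 i j)
    constructor
    · change ‖z.1 - cyc (fun i j => 2 * Fd H ((1 / 2 : ℝ) • z.1) z.2 i j)‖ ≤ 13 / 100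
      rw [← hq, hz]
      have e : (2 : ℝ) • q - cyc (fun i j => 2 * Fd H q z.2 i j) =
          ((2 : ℝ) • q - om p q) + cyc (fun i j => ta p q z.2 i j - 2 * Fd H q z.2 i j) := by
        rw [cyc_sub (ta p q z.2), cyc_ta]
        abel
      rw [e]
      refine (norm_add_le _ _).trans ?_
      have c3 := mul_le_mul_of_nonneg_left hs hcp.le
      linarith
    · change ‖z.2 - grd (fun i j => 2 * Fd H ((1 / 2 : ℝ) • z.1) z.2 i j)‖ ≤ M
      rw [← hq]
      have e : z.2 - grd (fun i j => 2 * Fd H q z.2 i j) =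
          (z.2 - grd (ta p q z.2)) + grd (fun i j => ta p q z.2 i j - 2 * Fd H q z.2 i j) := by
        rw [grd_sub (ta p q z.2)]
        abel
      rw [e]
      refine (norm_add_le _ _).trans ?_
      have c4 : ‖z.2 - grd (ta p q z.2)‖ ≤ 1 / 4 * ∑ e ∈ prs, (‖p e.1‖ + ‖p e.2‖) := by
        rw [grd_ta, norm_smul, Real.norm_of_nonneg (by norm_num)]
        refine mul_le_mul_of_nonneg_left ((norm_sum_le _ _).trans (Finset.sum_le_sum fun e he => ?_)) (by norm_num)
        rw [norm_smul, vv_sub_norm (ne_of_prs he), mul_one]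
        refine (norm_inner_le_norm _ _).trans ?_
        rw [vv_sub_norm (ne_of_prs he), one_mul]
        refine (norm_add_le _ _).trans ?_
        rw [cy_norm, cy_norm]
      rw [hM]
      linarith
  obtain ⟨z, z1, z2, hz⟩ := brouwer2 hf (by norm_num) hM0 key
  obtain ⟨q, hq⟩ : ∃ q : E, q = (1 / 2 : ℝ) • z.1 := ⟨_, rfl⟩
  have hqn : ‖q‖ ≤ 65 / 1000 := by
    rw [hq, norm_smul]
    norm_num
    linarith
  have f1 : cyc (fun i j => 2 * Fd H q z.2 i j) = 0 := by
    have := congrArg Prod.fst hz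
    change z.1 - cyc (fun i j => 2 * Fd H ((1 / 2 : ℝ) • z.1) z.2 i j) = z.1 at this
    rw [← hq] at this
    exact sub_eq_self.1 this
  have f2 : grd (fun i j => 2 * Fd H q z.2 i j) = 0 := by
    have := congrArg Prod.snd hz
    change z.2 - grd (fun i j => 2 * Fd H ((1 / 2 : ℝ) • z.1) z.2 i j) = z.2 at this
    rw [← hq] at this
    exact sub_eq_self.1 this
  have hF : ∀ i j, i ≠ j → Fd H q z.2 i j = 0 := by
    have hr : ∀ i j, i ≠ j → (fun i j => if i = j then (0 : ℝ) else 2 * Fd H q z.2 i j) i j =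
        (fun i j => 2 * Fd H q z.2 i j) i j := by
      intro i j hij
      simp only [if_neg hij]
    have g1 := cyc_congr hr
    have g2 := grd_congr hr
    rw [f1] at g1
    rw [f2] at g2
    have ha : ∀ i j, (fun i j => if i = j then (0 : ℝ) else 2 * Fd H q z.2 i j) i j =
        -(fun i j => if i = j then (0 : ℝ) else 2 * Fd H q z.2 i j) j i := by
      intro i j
      rcases eq_or_ne i j with hij | hij
      · subst hij
        simp
      · simp only [if_neg hij, if_neg hij.symm]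
        rw [Fd_anti h q z.2 hij]
        ring
    intro i j hij
    have := arr_zero ha g1 g2 i j
    simp only [if_neg hij] at this
    linarith
  have hta : ∀ i j, i ≠ j → |ta p q z.2 i j| ≤ sj p q i j := by
    intro i j hij
    have := ta_sub h hp q z.2 hij
    rwa [hF i j hij, mul_zero, sub_zero] at this
  refine ⟨q, z.2, hqn, hF, hta, ?_⟩
  rw [← cyc_ta p q z.2]
  refine (cyc_norm _).trans (mul_le_mul_of_nonneg_left ?_ hcp.le)
  rw [Tq]
  exact Finset.sum_le_sum fun e he => hta _ _ (ne_of_prs he)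

end Pool.Agent.FRX
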