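import Pool.Agent.FRX.Defs
import Pool.Agent.FRX.CRO
import Pool.Agent.FRX.DEL
/-!
POL (110 lines). Polar decomposition in the needed form.
PROOF. T x = SS p x is linear; T*T is symmetric: eigenvectorBasis f (LinearMap.IsSymmetric.eigenvectorBasis, dimension 3) with T*T f_i = μ_i f_i,
μ_i = ‖T f_i‖² (inner with f_i) and <T f_i, T f_j> = 0 for i ≠ j. By del_sum (1 - μ_i)² ≤ (5/4)(.208)² < 1, so μ_i > 0, s_i = √μ_i. The vectors g_i = s_i⁻¹ T f_i are
orthonormal, hence an orthonormal basis (three vectors in dimension 3); φ = the isometry with φ g_i = f_i (OrthonormalBasis.equiv). Then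
SS (φ ∘ p) x = φ (SS p x) (linearity), so SS (φ ∘ p) f_i = s_i f_i.
-/
set_option autoImplicit false

open MeasureTheory Set Metric Pool.Agent.MEIS Pool.Agent.MGE

open Pool.Agent.MSQ (cc)

namespace Pool.Agent.FRX

private theorem pol_prs (f : Fin 4 × Fin 4 → ℝ) :
    ∑ e ∈ prs, f e = f (0, 1) + f (0, 2) + f (0, 3) + f (1, 2) + f (1, 3) + f (2, 3) := by
  rw [prs]
  rw [Finset.sum_insert (by decide), Finset.sum_insert (by decide), Finset.sum_insert (by decide),
    Finset.sum_insert (by decide), Finset.sum_insert (by decide), Finset.sum_singleton]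
  ring

/-- `SS p` as a linear map -/
private noncomputable def polT (p : Fin 4 → E) : E →ₗ[ℝ] E where
  toFun := SS p
  map_add' := SS_add p
  map_smul' := by
    intro t x
    rw [SS_smul]
    rfl

private theorem pol_Dd {p : Fin 4 → E} (hd : ∀ i j, ‖p i - p j‖ ≤ 1) : 0 ≤ Dd p := by
  refine Finset.sum_nonneg fun e _ => ?_
  have h1 := hd e.1 e.2
  have h2 := norm_nonneg (p e.1 - p e.2)
  nlinarith

private theorem pol_SS (p : Fin 4 → E) (φ : E ≃ₗᵢ[ℝ] E) (x : E) :
    SS (fun j => φ (p j)) x = φ (SS p x) := by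
  rw [SS, SS, map_smul, map_sum]
  simp only [map_smul]

theorem polar_ex {p : Fin 4 → E} (hd : ∀ i j, ‖p i - p j‖ ≤ 1) (hD : Dd p ≤ 208 / 1000) :
    ∃ (φ : E ≃ₗᵢ[ℝ] E) (f : OrthonormalBasis (Fin 3) ℝ E) (s : Fin 3 → ℝ), (∀ i, 0 < s i) ∧
      ∀ i, SS (fun j => φ (p j)) (f i) = s i • f i := by
  classical
  have hfin : Module.finrank ℝ E = 3 := by simp [E]
  set T := polT p with hT
  have hTx : ∀ x, T x = SS p x := fun x => rfl
  have hsym : (LinearMap.adjoint T * T).IsSymmetric := LinearMap.isSymmetric_adjoint_mul_self T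
  set f := hsym.eigenvectorBasis hfin with hf
  have hin : ∀ i j, inner ℝ (T (f i)) (T (f j)) =
      hsym.eigenvalues hfin i * inner ℝ (f i) (f j) := by
    intro i j
    have h1 := hsym.apply_eigenvectorBasis hfin i
    rw [← LinearMap.adjoint_inner_left]
    have h2 : (LinearMap.adjoint T) (T (f i)) = (hsym.eigenvalues hfin i : ℝ) • f i := h1
    rw [h2, real_inner_smul_left]
  obtain ⟨-, hs2⟩ := del_sum hd f
  have hD0 := pol_Dd hd
  have hpos : ∀ i, 0 < ‖T (f i)‖ := by
    intro i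
    have h1 : (1 - ‖SS p (f i)‖ ^ 2) ^ 2 ≤ ∑ j, (1 - ‖SS p (f j)‖ ^ 2) ^ 2 :=
      Finset.single_le_sum (f := fun j => (1 - ‖SS p (f j)‖ ^ 2) ^ 2)
        (fun j _ => sq_nonneg _) (Finset.mem_univ i)
    have h2 : Dd p ^ 2 ≤ (208 / 1000) ^ 2 := by nlinarith
    have h3 : (1 - ‖SS p (f i)‖ ^ 2) ^ 2 < 1 := by
      have : (5 / 4 : ℝ) * (208 / 1000) ^ 2 < 1 := by norm_num
      nlinarith
    rw [norm_pos_iff]
    intro h0
    rw [← hTx, h0, norm_zero] at h3
    norm_num at h3
  set g : Fin 3 → E := fun i => (‖T (f i)‖)⁻¹ • T (f i) with hg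
  have hgo : Orthonormal ℝ g := by
    refine ⟨fun i => ?_, fun i j hij => ?_⟩
    · rw [hg]
      simp only
      rw [norm_smul, norm_inv, norm_norm, inv_mul_cancel₀ (hpos i).ne']
    · rw [hg]
      simp only
      rw [real_inner_smul_left, real_inner_smul_right, hin, f.orthonormal.2 hij]
      ring
  have hgo' : Orthonormal ℝ ((Set.univ : Set (Fin 3)).domRestrict g) :=
    hgo.comp _ Subtype.val_injective
  obtain ⟨b, hb⟩ := hgo'.exists_orthonormalBasis_extension_of_card_eq (ι := Fin 3)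
    (by rw [hfin, Fintype.card_fin])
  have hb' : ∀ i, b i = g i := fun i => hb i (Set.mem_univ i)
  refine ⟨b.repr.trans f.repr.symm, f, fun i => ‖T (f i)‖, hpos, fun i => ?_⟩
  rw [pol_SS, ← hTx]
  have h4 : T (f i) = ‖T (f i)‖ • b i := by
    rw [hb' i, hg]
    simp only
    rw [smul_smul, mul_inv_cancel₀ (hpos i).ne', one_smul]
  have h5 : (b.repr.trans f.repr.symm) (b i) = f i := by
    rw [LinearIsometryEquiv.trans_apply, OrthonormalBasis.repr_self,
      OrthonormalBasis.repr_symm_single]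
  rw [h4, map_smul, h5]

end Pool.Agent.FRX
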