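import Pool.Agent.FRX.Defs
import Pool.Agent.FRX.CRO
import Pool.Agent.FRX.DEL
/-!
SPE (120 lines). Spectral estimates.
PROOF. S f_i = s_i f_i, s_i > 0. δ_i = 1 - s_i². del_sum: Σ δ_i = D/2 ∈ [0, .1039], Σ δ_i² ≤ (5/4)(.2078)² ≤ .05398, so |δ_i| ≤ .23234, s_i ≥ .876.
1 - s_i = δ_i/(1+s_i), so each |1-s_i| ≤ .23234/1.876 ≤ .124. δ/2 ≤ 1 - s ≤ δ/2 + .15 δ² for s ≥ .8257
(1 - s - δ/2 = (1-s)²/2 ≥ 0; δ/2 + .15δ² - (1-s) = (1-s)²(.15(1+s)² - 1/2) ≥ 0). So 0 ≤ Σ(1-s_i) ≤ .05195 + .15·.05398 ≤ .06005, trS = Σ s_i ≥ 2.93995.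
trS p = Σ <f_i, S f_i> = Σ s_i
(trace in the basis f; trS p = 2 Σ_j <vv j, p j> = Σ_i <f_i, SS p f_i> by expanding, vv_tight/Parseval). Symmetry: expand x, y in f.
cl: ‖Sx - x‖² = Σ (s_i - 1)² <f_i,x>² ≤ (.124)² ‖x‖².
-/
set_option autoImplicit false

open MeasureTheory Set Metric Pool.Agent.MEIS Pool.Agent.MGE

open Pool.Agent.MSQ (cc)

namespace Pool.Agent.FRX

private noncomputable def SPE_L (p : Fin 4 → E) : E →ₗ[ℝ] E where
  toFun := SS p
  map_add' := SS_add p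
  map_smul' := fun t x => SS_smul p t x

private theorem SPE_inner {p : Fin 4 → E} {f : OrthonormalBasis (Fin 3) ℝ E} {s : Fin 3 → ℝ}
    (hf : ∀ i, SS p (f i) = s i • f i) (x : E) (i : Fin 3) :
    inner ℝ (f i) (SS p x) = s i * inner ℝ (f i) x := by
  have h1 : SS p x = ∑ j, inner ℝ (f j) x • (s j • f j) := by
    have h2 : SS p x = SPE_L p (∑ j, inner ℝ (f j) x • f j) := by
      rw [f.sum_repr' x]
      rfl
    rw [h2, map_sum]
    refine Finset.sum_congr rfl fun j _ => ?_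
    rw [map_smul]
    congr 1
    exact hf j
  rw [h1, inner_sum]
  simp only [inner_smul_right]
  rw [Finset.sum_eq_single i]
  · rw [real_inner_self_eq_norm_sq, f.norm_eq_one]
    ring
  · intro j _ hj
    rw [f.inner_eq_zero hj.symm]
    ring
  · intro h
    exact absurd (Finset.mem_univ i) h

private theorem SPE_norm {p : Fin 4 → E} {f : OrthonormalBasis (Fin 3) ℝ E} {s : Fin 3 → ℝ}
    (hs : ∀ i, 0 < s i) (hf : ∀ i, SS p (f i) = s i • f i) (i : Fin 3) : ‖SS p (f i)‖ = s i := by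
  rw [hf i, norm_smul, f.norm_eq_one, mul_one, Real.norm_eq_abs, abs_of_pos (hs i)]

private theorem SPE_tr {p : Fin 4 → E} {f : OrthonormalBasis (Fin 3) ℝ E} {s : Fin 3 → ℝ}
    (hf : ∀ i, SS p (f i) = s i • f i) : trS p = ∑ i, s i := by
  have h1 : ∀ i, s i = inner ℝ (f i) (SS p (f i)) := by
    intro i
    rw [SPE_inner hf, real_inner_self_eq_norm_sq, f.norm_eq_one]
    ring
  have h2 : ∀ i, s i = ∑ j, 2 * (inner ℝ (vv j) (f i) * inner ℝ (f i) (p j)) := by
    intro i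
    rw [h1 i]
    unfold SS
    rw [inner_smul_right, inner_sum, Finset.mul_sum]
    refine Finset.sum_congr rfl fun j _ => ?_
    rw [inner_smul_right, real_inner_comm (f i) (vv j)]
  rw [Finset.sum_congr rfl fun i _ => h2 i, Finset.sum_comm]
  unfold trS
  rw [Finset.mul_sum]
  refine Finset.sum_congr rfl fun j _ => ?_
  rw [← Finset.mul_sum, f.sum_inner_mul_inner]

theorem spec {p : Fin 4 → E} (hd : ∀ i j, ‖p i - p j‖ ≤ 1) (hD : Dd p ≤ 2078 / 10000)
    {f : OrthonormalBasis (Fin 3) ℝ E} {s : Fin 3 → ℝ} (hs : ∀ i, 0 < s i)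
    (hf : ∀ i, SS p (f i) = s i • f i) : Sok p := by
  obtain ⟨e1, e2⟩ := del_sum hd f
  have hn := SPE_norm hs hf
  simp only [hn] at e1 e2
  have hD0 : 0 ≤ Dd p := by
    unfold Dd
    refine Finset.sum_nonneg fun e _ => ?_
    have h1 := hd e.1 e.2
    have h2 := norm_nonneg (p e.1 - p e.2)
    nlinarith
  have hD2 : Dd p ^ 2 ≤ (2078 / 10000) ^ 2 := by nlinarith
  have e3 : ∀ i, (1 - s i ^ 2) ^ 2 ≤ 5 / 4 * Dd p ^ 2 := by
    intro i
    refine le_trans ?_ e2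
    exact Finset.single_le_sum (f := fun i => (1 - s i ^ 2) ^ 2) (fun j _ => sq_nonneg _) (Finset.mem_univ i)
  have e4 : ∀ i, 876 / 1000 ≤ s i ∧ s i ≤ 1124 / 1000 := by
    intro i
    have h1 := e3 i
    have h2 := hs i
    have h3 : (1 - s i ^ 2) ^ 2 ≤ (23234 / 100000) ^ 2 := by
      refine le_trans h1 ?_
      nlinarith
    have h4 := abs_le_of_sq_le_sq' h3 (by norm_num)
    constructor
    · by_contra hc
      push Not at hc
      nlinarith [h4.2]
    · by_contra hc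
      push Not at hc
      nlinarith [h4.1]
  have htr := SPE_tr hf
  refine ⟨?_, ?_, ?_, ?_⟩
  · intro x y
    rw [← f.sum_inner_mul_inner (SS p x) y, ← f.sum_inner_mul_inner x (SS p y)]
    refine Finset.sum_congr rfl fun i _ => ?_
    rw [real_inner_comm (f i) (SS p x), SPE_inner hf, SPE_inner hf, real_inner_comm (f i) x]
    ring
  · rw [htr]
    have h : ∀ i, 1 - s i ≤ (1 - s i ^ 2) / 2 + 15 / 100 * (1 - s i ^ 2) ^ 2 := by
      intro i
      have h1 := (e4 i).1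
      have h2 : (0 : ℝ) ≤ 15 / 100 * (1 + s i) ^ 2 - 1 / 2 := by nlinarith
      nlinarith [mul_nonneg (sq_nonneg (1 - s i)) h2]
    have h' := Finset.sum_le_sum fun i (_ : i ∈ Finset.univ) => h i
    simp only [Fin.sum_univ_three] at h' e1 e2 ⊢
    nlinarith
  · rw [htr]
    have h : ∀ i, (1 - s i ^ 2) / 2 ≤ 1 - s i := by
      intro i
      nlinarith [sq_nonneg (1 - s i)]
    have h' := Finset.sum_le_sum fun i (_ : i ∈ Finset.univ) => h i
    simp only [Fin.sum_univ_three] at h' e1 e2 ⊢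
    nlinarith
  · intro x
    have h1 : ‖SS p x - x‖ ^ 2 ≤ (124 / 1000 * ‖x‖) ^ 2 := by
      rw [← f.sum_sq_norm_inner_right (SS p x - x), mul_pow, ← f.sum_sq_norm_inner_right x, Finset.mul_sum]
      refine Finset.sum_le_sum fun i _ => ?_
      rw [inner_sub_right, SPE_inner hf]
      have h2 : s i * inner ℝ (f i) x - inner ℝ (f i) x = (s i - 1) * inner ℝ (f i) x := by ring
      rw [h2, norm_mul, mul_pow]
      refine mul_le_mul_of_nonneg_right ?_ (sq_nonneg _)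
      rw [Real.norm_eq_abs, sq_abs]
      have h3 := e4 i
      nlinarith [h3.1, h3.2]
    exact le_of_sq_le_sq h1 (by positivity)

end Pool.Agent.FRX
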