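import Pool.Agent.FRX.Defs
import Pool.Agent.FRX.CRO
import Pool.Agent.FRX.OMG
import Pool.Agent.FRX.REG
/-!
TBD (90 lines). Final bound of the total defect.
PROOF. μ = trS - <q,Sq>/‖q‖² (for q ≠ 0; if q = 0: Tq = 6 - 2 trS ≤ .1202). <om, q> = (‖q‖²/(1+‖q‖²)) μ (the cross product term is orthogonal to q), so
‖q‖ μ/(1+‖q‖²) ≤ ‖om‖ ≤ cc Tq; Tq = 6 - 2trS + 4‖q‖²μ/(1+‖q‖²) ≤ .1202 + 4 (1/2) Tq² (1+‖q‖²)/μ, μ ≥ 2.9399 - 1 - .124 = 1.8159,
1+‖q‖² ≤ 1.00423. So with T = Tq: T ≤ .1202 + 1.1062 T² and T ≤ .1561 (REG): if T > .143 the convex function 1.1062 T² - T + .1202 is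
negative on [.143, .1561] (values -.00017 and -.0089 at the ends), contradiction. (nlinarith on the three facts.)
-/
set_option autoImplicit false

open MeasureTheory Set Metric Pool.Agent.MEIS Pool.Agent.MGE

open Pool.Agent.MSQ (cc)

namespace Pool.Agent.FRX

theorem T_final {p : Fin 4 → E} (h : Sok p) {q : E} (hq : ‖q‖ ≤ 65 / 1000)
    (hom : ‖om p q‖ ≤ cc * Tq p q) (hT : 0 ≤ Tq p q) : Tq p q ≤ 143 / 1000 := by
  have hn0 : 0 ≤ ‖q‖ := norm_nonneg q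
  have hq2 : ‖q‖ ^ 2 ≤ 4225 / 1000000 := by nlinarith
  have hpos : 0 < 1 + ‖q‖ ^ 2 := by positivity
  have ht1 := h.tr1
  have ht2 := h.tr2
  have hcc := cc_sq
  have hcp := cc_pos
  have hT2 := (reg_bound h hq).2
  -- bound of the quadratic form
  have ha : inner ℝ q (SS p q) ≤ 1124 / 1000 * ‖q‖ ^ 2 := by
    have e : SS p q = q + (SS p q - q) := by abel
    rw [e, inner_add_right, real_inner_self_eq_norm_sq]
    have h1 : inner ℝ q (SS p q - q) ≤ ‖q‖ * ‖SS p q - q‖ := real_inner_le_norm _ _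
    have h2 : ‖q‖ * ‖SS p q - q‖ ≤ ‖q‖ * (124 / 1000 * ‖q‖) :=
      mul_le_mul_of_nonneg_left (h.cl q) hn0
    nlinarith
  obtain ⟨B, hB⟩ : ∃ B : ℝ, B = 1 / (1 + ‖q‖ ^ 2) * (‖q‖ ^ 2 * trS p - inner ℝ q (SS p q)) := ⟨_, rfl⟩
  have hBA : B * (1 + ‖q‖ ^ 2) = ‖q‖ ^ 2 * trS p - inner ℝ q (SS p q) := by
    rw [hB]
    field_simp
  have hB0 : 18159 / 10000 * ‖q‖ ^ 2 ≤ B * (1 + ‖q‖ ^ 2) := by
    rw [hBA]
    have : ‖q‖ ^ 2 * (29399 / 10000) ≤ ‖q‖ ^ 2 * trS p := mul_le_mul_of_nonneg_left ht1 (by positivity)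
    nlinarith
  have hBn : 0 ≤ B := by
    by_contra hneg
    push Not at hneg
    have : B * (1 + ‖q‖ ^ 2) < 0 := mul_neg_of_neg_of_pos hneg hpos
    nlinarith [sq_nonneg ‖q‖]
  have hB1 : 18159 / 10000 * ‖q‖ ^ 2 ≤ B * (1004225 / 1000000) := by
    refine hB0.trans (mul_le_mul_of_nonneg_left (by linarith) hBn)
  have hTq : Tq p q = 6 - 2 * trS p + 4 * B := by
    rw [Tq_eq h.sym q, hB]
    ring
  have hin : inner ℝ (om p q) q = B := by
    rw [om_eq h.sym q, real_inner_smul_left, inner_sub_left, inner_sub_left, cr_inner_left, real_inner_smul_left,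
      real_inner_self_eq_norm_sq, real_inner_comm q (SS p q), hB]
    ring
  have hBc : B ≤ cc * Tq p q * ‖q‖ := by
    rw [← hin]
    exact (real_inner_le_norm _ _).trans (mul_le_mul_of_nonneg_right hom hn0)
  have hsq : B ^ 2 ≤ 1 / 2 * Tq p q ^ 2 * ‖q‖ ^ 2 := by
    have := pow_le_pow_left₀ hBn hBc 2
    have e : (cc * Tq p q * ‖q‖) ^ 2 = 1 / 2 * Tq p q ^ 2 * ‖q‖ ^ 2 := by
      rw [mul_pow, mul_pow, hcc]
    rwa [e] at this
  have hBT : B ≤ 27652 / 100000 * Tq p q ^ 2 := by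
    rcases hBn.eq_or_lt with h0 | h0
    · rw [← h0]
      positivity
    · have h1 : B ^ 2 ≤ 27652 / 100000 * Tq p q ^ 2 * B := by
        have h3 : ‖q‖ ^ 2 ≤ B * (55303 / 100000) := by linarith
        have h4 : 1 / 2 * Tq p q ^ 2 * ‖q‖ ^ 2 ≤ 1 / 2 * Tq p q ^ 2 * (B * (55303 / 100000)) :=
          mul_le_mul_of_nonneg_left h3 (by positivity)
        have h5 : 0 ≤ Tq p q ^ 2 * B := by positivity
        nlinarith
      rw [sq] at h1
      exact le_of_mul_le_mul_right h1 h0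
  have hfin : Tq p q ≤ 1202 / 10000 + 110608 / 100000 * Tq p q ^ 2 := by linarith
  by_contra hgt
  push Not at hgt
  nlinarith [mul_nonneg (sub_nonneg.2 hgt.le) (sub_nonneg.2 hT2)]

end Pool.Agent.FRX
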