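import Pool.Agent.FRX.Defs
import Pool.Agent.FRX.CRO
import Pool.Agent.FRX.CAY
import Pool.Agent.FRX.TBD
import Pool.Agent.FRX.POL
import Pool.Agent.FRX.SPE
import Pool.Agent.FRX.FXP
/-!
FRT (110 lines). The frame theorem.
PROOF. ‖p i - p j‖ ≤ 1: x = p i - p j, ‖x‖² = <x, p i> + <-x, p j> ≤ H x + H (-x) = ‖x‖. polar_ex for p gives ψ, f, s; p1 j = ψ (p j), H1 x = H (ψ⁻¹ x) is SH, <x, p1 j> ≤ H1 x,
Dd p1 = Dd p; spec gives Sok p1. fixed_frame gives q, t. φ = ψ⁻¹ ∘ (cy (-q) as isometry), o = t: H' x = H (φ x) - <x,t> = H1 (cy (-q) x) - <x,t>. Fd = 0 is the first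
claim. p' i = cy q (p1 i) - t satisfies <x, p' i> ≤ H' x. θ_ij = <vv i - vv j, vv i - p' i> = 1/2 - <w, cy q (p1 i)> + <w,t> = (sj + ta)/2 ≥ 0, the sum over ordered pairs is
Tq ≤ .143 (T_final; Tq ≥ 0 as sj ≥ |ta| ≥ 0).
-/
set_option autoImplicit false

open MeasureTheory Set Metric Pool.Agent.MEIS Pool.Agent.MGE

open Pool.Agent.MSQ (cc)

namespace Pool.Agent.FRX

private theorem frt_dist {H : E → ℝ} {R : ℝ} (h : SH H R) {p : Fin 4 → E}
    (hp : ∀ (i : Fin 4) (x : E), inner ℝ x (p i) ≤ H x) (i j : Fin 4) : ‖p i - p j‖ ≤ 1 := by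
  have h1 := hp i (p i - p j)
  have h2 := hp j (-(p i - p j))
  have h3 := h.wid (p i - p j)
  have h4 : ‖p i - p j‖ ^ 2 = inner ℝ (p i - p j) (p i) + inner ℝ (-(p i - p j)) (p j) := by
    rw [← real_inner_self_eq_norm_sq, inner_neg_left, ← sub_eq_add_neg, ← inner_sub_right]
  by_contra hc
  push Not at hc
  nlinarith

private theorem frt_SH {H : E → ℝ} {R : ℝ} (h : SH H R) (ψ : E ≃ₗᵢ[ℝ] E) :
    SH (fun x => H (ψ.symm x)) R := by
  refine ⟨fun t ht x => ?_, fun x y => ?_, fun x => ?_, fun x => ?_⟩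
  · show H (ψ.symm (t • x)) = t * H (ψ.symm x)
    rw [map_smul]
    exact h.hom t ht _
  · show H (ψ.symm (x + y)) ≤ H (ψ.symm x) + H (ψ.symm y)
    rw [map_add]
    exact h.sub _ _
  · show H (ψ.symm x) + H (ψ.symm (-x)) = ‖x‖
    rw [map_neg, h.wid, LinearIsometryEquiv.norm_map]
  · show H (ψ.symm x) ≤ R * ‖x‖
    have h1 := h.bd (ψ.symm x)
    rwa [LinearIsometryEquiv.norm_map] at h1

private theorem frt_Dd (ψ : E ≃ₗᵢ[ℝ] E) (p : Fin 4 → E) : Dd (fun j => ψ (p j)) = Dd p := by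
  unfold Dd
  refine Finset.sum_congr rfl fun e _ => ?_
  show 1 - ‖ψ (p e.1) - ψ (p e.2)‖ ^ 2 = _
  rw [← map_sub, LinearIsometryEquiv.norm_map]

private theorem frt_theta {p : Fin 4 → E} {q t : E} {i j : Fin 4} (hij : i ≠ j) :
    2 * inner ℝ (vv i - vv j) (vv i - (cy q (p i) - t)) = sj p q i j + ta p q t i j := by
  unfold sj ta
  rw [cy_sub, inner_sub_right (vv i - vv j) (vv i), inner_sub_right _ (cy q (p i)) t,
    inner_sub_right _ (cy q (p i)) (cy q (p j)), inner_add_right, vv_sub_inner hij]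
  ring

private theorem frt_sj_symm (p : Fin 4 → E) (q : E) (i j : Fin 4) : sj p q i j = sj p q j i := by
  unfold sj
  have h1 : vv i - vv j = -(vv j - vv i) := by abel
  have h2 : cy q (p i - p j) = -cy q (p j - p i) := by
    have : p i - p j = (-1 : ℝ) • (p j - p i) := by
      rw [neg_one_smul]; abel
    rw [this, cy_smul, neg_one_smul]
  rw [h1, h2, inner_neg_neg]

private theorem frt_ta_anti (p : Fin 4 → E) (q t : E) (i j : Fin 4) :
    ta p q t i j = -ta p q t j i := by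
  unfold ta
  have h1 : vv i - vv j = -(vv j - vv i) := by abel
  rw [h1, inner_neg_left, inner_neg_left, add_comm (cy q (p i))]
  ring

private theorem frt_sum {p : Fin 4 → E} {q t : E} :
    ∑ i, ∑ j, inner ℝ (vv i - vv j) (vv i - (cy q (p i) - t)) = Tq p q := by
  have hz : ∀ i : Fin 4, inner ℝ (vv i - vv i) (vv i - (cy q (p i) - t)) = 0 := fun i => by
    rw [sub_self, inner_zero_left]
  have hp : ∀ i j : Fin 4, i ≠ j → inner ℝ (vv i - vv j) (vv i - (cy q (p i) - t)) +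
      inner ℝ (vv j - vv i) (vv j - (cy q (p j) - t)) = sj p q i j := fun i j hij => by
    have h1 := frt_theta (p := p) (q := q) (t := t) hij
    have h2 := frt_theta (p := p) (q := q) (t := t) hij.symm
    rw [frt_sj_symm p q j i, frt_ta_anti p q t j i] at h2
    linarith
  have h01 := hp 0 1 (by decide)
  have h02 := hp 0 2 (by decide)
  have h03 := hp 0 3 (by decide)
  have h12 := hp 1 2 (by decide)
  have h13 := hp 1 3 (by decide)
  have h23 := hp 2 3 (by decide)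
  have z0 := hz 0
  have z1 := hz 1
  have z2 := hz 2
  have z3 := hz 3
  have hT : Tq p q = sj p q 0 1 + (sj p q 0 2 + (sj p q 0 3 + (sj p q 1 2 + (sj p q 1 3 + sj p q 2 3)))) := by
    unfold Tq prs
    rw [Finset.sum_insert (by decide), Finset.sum_insert (by decide), Finset.sum_insert (by decide),
      Finset.sum_insert (by decide), Finset.sum_insert (by decide), Finset.sum_singleton]
  rw [hT]
  simp only [Fin.sum_univ_four]
  linarith

theorem frame {H : E → ℝ} {R : ℝ} (h : SH H R) {p : Fin 4 → E}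
    (hp : ∀ (i : Fin 4) (x : E), inner ℝ x (p i) ≤ H x) (hD : Dd p ≤ 2078 / 10000) :
    ∃ (φ : E ≃ₗᵢ[ℝ] E) (o : E) (p' : Fin 4 → E),
      (∀ i j, i ≠ j → H (φ (vv i - vv j)) - inner ℝ (vv i - vv j) o = 1 / 2) ∧
      (∀ (i : Fin 4) (x : E), inner ℝ x (p' i) ≤ H (φ x) - inner ℝ x o) ∧
      (∀ i j, i ≠ j → 0 ≤ inner ℝ (vv i - vv j) (vv i - p' i)) ∧
      ∑ i, ∑ j, inner ℝ (vv i - vv j) (vv i - p' i) ≤ 143 / 1000 := by
  have hd := frt_dist h hp
  obtain ⟨ψ, f, s, hs, hf⟩ := polar_ex hd (hD.trans (by norm_num))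
  have h1 := frt_SH h ψ
  have hp1 : ∀ (i : Fin 4) (x : E), inner ℝ x (ψ (p i)) ≤ H (ψ.symm x) := fun i x => by
    have h2 := hp i (ψ.symm x)
    have h3 : (inner ℝ (ψ.symm x) (p i) : ℝ) = inner ℝ x (ψ (p i)) := by
      rw [← LinearIsometryEquiv.inner_map_map ψ (ψ.symm x) (p i), ψ.apply_symm_apply]
    rw [← h3]
    exact h2
  have hd1 := frt_dist h1 hp1
  have hD1 : Dd (fun j => ψ (p j)) ≤ 2078 / 10000 := by
    rw [frt_Dd]
    exact hD
  have hS := spec hd1 hD1 hs hf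
  obtain ⟨q, t, hq, hF, hta, hom⟩ := fixed_frame h1 hp1 hS
  obtain ⟨χ, hχ⟩ := exists_cyE (-q)
  have hphi : ∀ x, (χ.trans ψ.symm) x = ψ.symm (cy (-q) x) := fun x => by
    rw [LinearIsometryEquiv.trans_apply, hχ]
  have hsj : ∀ i j : Fin 4, i ≠ j → 0 ≤ sj (fun j => ψ (p j)) q i j := fun i j hij =>
    (abs_nonneg _).trans (hta i j hij)
  have hT0 : 0 ≤ Tq (fun j => ψ (p j)) q := by
    unfold Tq
    refine Finset.sum_nonneg fun e he => hsj _ _ ?_
    revert e
    unfold prs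
    decide
  refine ⟨χ.trans ψ.symm, t, fun i => cy q (ψ (p i)) - t, fun i j hij => ?_, fun i x => ?_,
    fun i j hij => ?_, ?_⟩
  · have h2 := hF i j hij
    unfold Fd at h2
    rw [hphi]
    linarith
  · rw [hphi, inner_sub_right]
    have h2 := hp1 i (cy (-q) x)
    have h3 : (inner ℝ x (cy q (ψ (p i))) : ℝ) = inner ℝ (cy (-q) x) (ψ (p i)) := by
      rw [real_inner_comm, cy_adj, real_inner_comm]
    rw [h3]
    linarith
  · have h2 := frt_theta (p := fun j => ψ (p j)) (q := q) (t := t) hij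
    have h3 := hta i j hij
    have h4 := neg_abs_le (ta (fun j => ψ (p j)) q t i j)
    show 0 ≤ (inner ℝ (vv i - vv j) (vv i - (cy q (ψ (p i)) - t)) : ℝ)
    have h5 : (2 : ℝ) * inner ℝ (vv i - vv j) (vv i - (cy q (ψ (p i)) - t)) =
      sj (fun j => ψ (p j)) q i j + ta (fun j => ψ (p j)) q t i j := h2
    linarith
  · have h2 := frt_sum (p := fun j => ψ (p j)) (q := q) (t := t)
    have h3 := T_final hS hq hom hT0
    rw [← h2] at h3
    exact h3

end Pool.Agent.FRX
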