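import Pool.Agent.FRX.Defs
import Pool.Agent.MEIS.JFP
import Pool.Agent.MEIS.JUN
/-!
HEL (110 lines). Four points of large circumradius.
PROOF. Contrapositive of the Helly argument in MEIS.JUN: if every four points p : Fin 4 → C lie in a common closed ball of radius r, then the closed balls
closedBall x r, x ∈ C, have a common point (Convex.helly_theorem_compact', finrank + 1 = 4) and C ⊆ closedBall c r. So there are four points of C (with
repetition) for which no c has ‖p i - c‖ ≤ r for all i. Let l maximise jfpF p on the simplex; the proof of jung_four (MEIS.JFP; copy it)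
shows ‖p i - c‖² ≤ jfpF p l with c = Σ l_i p_i. If jfpF p l < r², all ‖p i - c‖ ≤ r, contradiction. jfp_double:
jfpF p l = (1/2) Σ_ij l_i l_j ‖p i - p j‖² = Σ_{e ∈ prs} l l ‖.‖².
-/
set_option autoImplicit false

open MeasureTheory Set Metric Pool.Agent.MEIS Pool.Agent.MGE

open Pool.Agent.MSQ (cc)

namespace Pool.Agent.FRX

private theorem hel_prs (f : Fin 4 × Fin 4 → ℝ) :
    ∑ e ∈ prs, f e = f (0, 1) + f (0, 2) + f (0, 3) + f (1, 2) + f (1, 3) + f (2, 3) := by
  rw [prs]
  rw [Finset.sum_insert (by decide), Finset.sum_insert (by decide), Finset.sum_insert (by decide),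
    Finset.sum_insert (by decide), Finset.sum_insert (by decide), Finset.sum_singleton]
  ring

private theorem hel_double (p : Fin 4 → E) (l : Fin 4 → ℝ) (hl : ∑ i, l i = 1) :
    jfpF p l = ∑ e ∈ prs, l e.1 * l e.2 * ‖p e.1 - p e.2‖ ^ 2 := by
  have h := jfp_double p l hl
  rw [hel_prs]
  simp only [Fin.sum_univ_four, sub_self, norm_zero] at h
  simp only
  rw [norm_sub_rev (p 1) (p 0), norm_sub_rev (p 2) (p 0), norm_sub_rev (p 3) (p 0),
    norm_sub_rev (p 2) (p 1), norm_sub_rev (p 3) (p 1), norm_sub_rev (p 3) (p 2)] at h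
  linarith

private theorem hel_max (p : Fin 4 → E) : ∃ l : Fin 4 → ℝ, (∀ i, 0 ≤ l i) ∧ ∑ i, l i = 1 ∧
    ∃ c : E, ∀ i, ‖p i - c‖ ^ 2 ≤ jfpF p l := by
  classical
  have hne : (stdSimplex ℝ (Fin 4)).Nonempty := ⟨_, single_mem_stdSimplex ℝ 0⟩
  obtain ⟨l, hl, hmax⟩ := (isCompact_stdSimplex (Fin 4) (𝕜 := ℝ)).exists_isMaxOn hne
    (jfp_cont p).continuousOn
  obtain ⟨hl0, hl1⟩ := hl
  refine ⟨l, hl0, hl1, ∑ i, l i • p i, fun i => ?_⟩
  set c := ∑ i, l i • p i with hcd
  have hl2 : jfpF p l = ∑ j, l j * ‖p j - c‖ ^ 2 := by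
    rw [jfp_shift p l hl1 c]
    simp [← hcd]
  have key : ∀ t : ℝ, 0 < t → t ≤ 1 → (1 - t) * ‖p i - c‖ ^ 2 ≤ jfpF p l := by
    intro t ht ht1
    set m : Fin 4 → ℝ := fun j => (1 - t) * l j + t * (if i = j then 1 else 0) with hm
    have hm1 : ∑ j, m j = 1 := by
      rw [hm, Finset.sum_add_distrib, ← Finset.mul_sum, ← Finset.mul_sum, hl1]
      simp
    have hmm : m ∈ stdSimplex ℝ (Fin 4) := by
      refine ⟨fun j => ?_, hm1⟩
      have := hl0 j
      have h' : (0:ℝ) ≤ if i = j then 1 else 0 := by split_ifs <;> norm_num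
      have h'' : 0 ≤ 1 - t := by linarith
      show 0 ≤ (1 - t) * l j + t * (if i = j then 1 else 0)
      positivity
    have h8 : jfpF p m ≤ jfpF p l := hmax hmm
    have h9 : ∑ j, m j • p j - c = t • (p i - c) := by
      have : ∑ j, m j • p j = (1 - t) • c + t • p i := by
        rw [hcd, Finset.smul_sum]
        simp only [hm, add_smul, Finset.sum_add_distrib, mul_smul]
        simp
      rw [this, smul_sub, sub_smul, one_smul]
      abel
    have h10 : ∑ j, m j * ‖p j - c‖ ^ 2 = (1 - t) * jfpF p l + t * ‖p i - c‖ ^ 2 := by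
      rw [hl2, Finset.mul_sum]
      simp only [hm, add_mul, Finset.sum_add_distrib, mul_assoc]
      simp
    rw [jfp_shift p m hm1 c, h9, h10, norm_smul, Real.norm_of_nonneg ht.le] at h8
    have h11 : t * ((1 - t) * ‖p i - c‖ ^ 2) ≤ t * jfpF p l := by nlinarith
    exact le_of_mul_le_mul_left h11 ht
  by_contra hcon
  push Not at hcon
  set A := ‖p i - c‖ ^ 2 with hA
  have hA0 : 0 ≤ A := by positivity
  have hF0 : 0 ≤ jfpF p l := by
    have := key 1 one_pos le_rfl
    linarith
  have hA1 : 0 < A := lt_of_le_of_lt hF0 hcon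
  have h12 := key ((A - jfpF p l) / (2 * A)) (by
    apply div_pos <;> linarith) (by
    rw [div_le_one (by linarith)]
    linarith)
  have h13 : (1 - (A - jfpF p l) / (2 * A)) * A = (A + jfpF p l) / 2 := by
    field_simp
    ring
  rw [h13] at h12
  linarith

theorem four_points {C : Set E} {r : ℝ} (hr : 0 ≤ r) (h : ¬ ∃ c : E, C ⊆ closedBall c r) :
    ∃ p : Fin 4 → E, (∀ i, p i ∈ C) ∧ ∃ l : Fin 4 → ℝ, (∀ i, 0 ≤ l i) ∧ ∑ i, l i = 1 ∧
      r ^ 2 ≤ ∑ e ∈ prs, l e.1 * l e.2 * ‖p e.1 - p e.2‖ ^ 2 := by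
  classical
  by_contra hcon
  apply h
  have hfin : Module.finrank ℝ E = 3 := by simp [E]
  have key : (⋂ x : C, closedBall (x : E) r).Nonempty := by
    refine Convex.helly_theorem_compact' (𝕜 := ℝ) (fun x => convex_closedBall _ _)
      (fun x => isCompact_closedBall _ _) ?_
    intro I hI
    rcases I.eq_empty_or_nonempty with rfl | hne
    · simp
    · have hneI : Nonempty (I : Type) := ⟨⟨hne.choose, hne.choose_spec⟩⟩
      have hcard : Fintype.card (I : Type) ≤ Fintype.card (Fin 4) := by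
        rw [Fintype.card_coe, Fintype.card_fin]
        rw [hfin] at hI
        exact hI
      obtain ⟨e⟩ := Function.Embedding.nonempty_of_card_le hcard
      have hsurj := Function.invFun_surjective e.injective
      set f : Fin 4 → (I : Type) := Function.invFun e with hf
      set p : Fin 4 → E := fun i => ((f i : C) : E) with hp
      obtain ⟨l, hl0, hl1, c, hc⟩ := hel_max p
      have hlt : jfpF p l < r ^ 2 := by
        by_contra hr2
        rw [not_lt, hel_double p l hl1] at hr2
        exact hcon ⟨p, fun i => (f i : C).2, l, hl0, hl1, hr2⟩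
      refine ⟨c, ?_⟩
      simp only [mem_iInter]
      intro x hx
      obtain ⟨i, hi⟩ := hsurj ⟨x, hx⟩
      rw [mem_closedBall, dist_comm, dist_eq_norm]
      have h1 := (hc i).trans hlt.le
      have h2 : p i = (x : E) := by
        rw [hp]
        simp only
        rw [hi]
      rw [h2] at h1
      exact le_of_sq_le_sq h1 hr
  obtain ⟨c, hc⟩ := key
  refine ⟨c, fun x hx => ?_⟩
  have h := mem_iInter.1 hc ⟨x, hx⟩
  rw [mem_closedBall] at h ⊢
  rwa [dist_comm]

end Pool.Agent.FRX
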