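import Pool.Agent.FRX.Defs
/-!
LAM (90 lines). The simplex inequality.
PROOF. x_i = l_i - 1/4, Σ x_i = 0, ξ = √(Σ x_i²). Σ_{i<j} l_i l_j = (1 - Σ l_i²)/2 = 3/8 - ξ²/2 (Σ l_i² = 1/4 + ξ²). With r² = .6027² = .36324729,
κ = 3/8 - r² = .01175271: Σ l_i l_j d_ij ≤ κ - ξ²/2; in particular ξ² ≤ 2κ, ξ ≤ .1534. For each pair, s = x_i + x_j, δ = x_i - x_j: ξ² ≥ s² + δ²/2
(the other two have sum -s), l_i l_j = (1/4 + s/2)² - δ²/4 ≥ 1/16 + s/4 + (3/4)s² - ξ²/2 ≥ (1/4 - ξ/2)² (|s| ≤ ξ ≤ 1/6, increasing in s).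
So D (1/4 - ξ/2)² ≤ κ - ξ²/2 and κ - ξ²/2 ≤ .2078 (1/4 - ξ/2)², because .2078/16 - κ - .05195 ξ + .55195 ξ² ≥ 0 has discriminant
.05195² - 4·.55195·.00123479 = .0026988 - .0027262 < 0.
-/
set_option autoImplicit false

open MeasureTheory Set Metric Pool.Agent.MEIS Pool.Agent.MGE

open Pool.Agent.MSQ (cc)

namespace Pool.Agent.FRX

private theorem lam_prs (f : Fin 4 × Fin 4 → ℝ) :
    ∑ e ∈ prs, f e = f (0, 1) + f (0, 2) + f (0, 3) + f (1, 2) + f (1, 3) + f (2, 3) := by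
  rw [prs]
  rw [Finset.sum_insert (by decide), Finset.sum_insert (by decide), Finset.sum_insert (by decide),
    Finset.sum_insert (by decide), Finset.sum_insert (by decide), Finset.sum_singleton]
  ring

private theorem lam_pair {a b c d z : ℝ} (h1 : a + b + c + d = 1) (hz : 0 ≤ z) (hz6 : z ≤ 1 / 6)
    (hq : z ^ 2 = (a - 1 / 4) ^ 2 + (b - 1 / 4) ^ 2 + (c - 1 / 4) ^ 2 + (d - 1 / 4) ^ 2) :
    (1 / 4 - z / 2) ^ 2 ≤ a * b := by
  obtain rfl : d = 1 - a - b - c := by linarith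
  have hs : (a + b - 1 / 2) ^ 2 ≤ z ^ 2 := by
    rw [hq]
    linarith [sq_nonneg (a - b), sq_nonneg (c - (1 - a - b - c))]
  have hs2 := abs_le_of_sq_le_sq' hs hz
  have hd : (a - b) ^ 2 / 2 + (a + b - 1 / 2) ^ 2 ≤ z ^ 2 := by
    rw [hq]
    linarith [sq_nonneg (c - (1 - a - b - c))]
  have hm : 0 ≤ (a + b - 1 / 2 + z) * (1 / 4 + 3 / 4 * (a + b - 1 / 2 - z)) :=
    mul_nonneg (by linarith [hs2.1]) (by linarith [hs2.1])
  nlinarith

theorem lam_bound {l : Fin 4 → ℝ} (hl : ∀ i, 0 ≤ l i) (h1 : ∑ i, l i = 1) {d : Fin 4 → Fin 4 → ℝ}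
    (hd : ∀ i j, 0 ≤ d i j)
    (h : (6027 / 10000 : ℝ) ^ 2 ≤ ∑ e ∈ prs, l e.1 * l e.2 * (1 - d e.1 e.2)) :
    ∑ e ∈ prs, d e.1 e.2 ≤ 2078 / 10000 := by
  rw [lam_prs] at h ⊢
  rw [Fin.sum_univ_four] at h1
  simp only at h ⊢
  set a := l 0 with ha
  set b := l 1 with hb
  set c := l 2 with hc
  set e := l 3 with he
  have ha0 : 0 ≤ a := hl 0
  have hb0 : 0 ≤ b := hl 1
  have hc0 : 0 ≤ c := hl 2
  have he0 : 0 ≤ e := hl 3
  have d01 := hd 0 1
  have d02 := hd 0 2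
  have d03 := hd 0 3
  have d12 := hd 1 2
  have d13 := hd 1 3
  have d23 := hd 2 3
  set Q := (a - 1 / 4) ^ 2 + (b - 1 / 4) ^ 2 + (c - 1 / 4) ^ 2 + (e - 1 / 4) ^ 2 with hQ
  have hQ0 : 0 ≤ Q := by positivity
  have hS : a * b * d 0 1 + a * c * d 0 2 + a * e * d 0 3 + b * c * d 1 2 + b * e * d 1 3 +
      c * e * d 2 3 ≤ 1175271 / 100000000 - Q / 2 := by
    have h2 : a * b + a * c + a * e + b * c + b * e + c * e = 3 / 8 - Q / 2 := by
      rw [hQ]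
      have h3 : (a + b + c + e) ^ 2 = 1 := by rw [h1]; norm_num
      nlinarith
    nlinarith
  have hS0 : 0 ≤ a * b * d 0 1 + a * c * d 0 2 + a * e * d 0 3 + b * c * d 1 2 + b * e * d 1 3 +
      c * e * d 2 3 := by positivity
  set z := √Q with hz
  have hz2 : z ^ 2 = Q := Real.sq_sqrt hQ0
  have hz0 : 0 ≤ z := Real.sqrt_nonneg _
  have hz6 : z ≤ 1534 / 10000 := by
    rw [hz]
    rw [Real.sqrt_le_left (by norm_num)]
    linarith
  have hz66 : z ≤ 1 / 6 := by linarith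
  have p01 := lam_pair (a := a) (b := b) (c := c) (d := e) h1 hz0 hz66 hz2
  have p02 := lam_pair (a := a) (b := c) (c := b) (d := e) (by linarith) hz0 hz66 (by rw [hz2, hQ]; ring)
  have p03 := lam_pair (a := a) (b := e) (c := c) (d := b) (by linarith) hz0 hz66 (by rw [hz2, hQ]; ring)
  have p12 := lam_pair (a := b) (b := c) (c := a) (d := e) (by linarith) hz0 hz66 (by rw [hz2, hQ]; ring)
  have p13 := lam_pair (a := b) (b := e) (c := c) (d := a) (by linarith) hz0 hz66 (by rw [hz2, hQ]; ring)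
  have p23 := lam_pair (a := c) (b := e) (c := a) (d := b) (by linarith) hz0 hz66 (by rw [hz2, hQ]; ring)
  set w := (1 / 4 - z / 2) ^ 2 with hw
  have hD : w * (d 0 1 + d 0 2 + d 0 3 + d 1 2 + d 1 3 + d 2 3) ≤ 1175271 / 100000000 - Q / 2 := by
    have m1 := mul_le_mul_of_nonneg_right p01 d01
    have m2 := mul_le_mul_of_nonneg_right p02 d02
    have m3 := mul_le_mul_of_nonneg_right p03 d03
    have m4 := mul_le_mul_of_nonneg_right p12 d12
    have m5 := mul_le_mul_of_nonneg_right p13 d13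
    have m6 := mul_le_mul_of_nonneg_right p23 d23
    linarith
  have hw2 : 1175271 / 100000000 - Q / 2 ≤ 2078 / 10000 * w := by
    rw [← hz2, hw]
    nlinarith [sq_nonneg (z - 5195 / 110390)]
  have hw0 : 0 < w := by
    have : 0 < 1 / 4 - z / 2 := by linarith
    positivity
  by_contra hcon
  rw [not_le] at hcon
  have := mul_lt_mul_of_pos_left hcon hw0
  linarith

end Pool.Agent.FRX
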